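import Pool.Agent.Helper15K1.KC.Real

/-!
The action of the automorphisms and the fundamental domain.
-/

set_option autoImplicit false
set_option linter.overlappingInstances false
set_option linter.unusedSectionVars false
set_option maxHeartbeats 1000000

open FF MvPolynomial Pool.Agent.W603.LV Pool.Agent.W602.GT Pool.Agent.W602.Cov
open Pool.Agent.Q57.FT Pool.Agent.Q57.CX Pool.Agent.Q57.HK Pool.Agent.Helper15K1.MM

namespace Pool.Agent.Helper15K1.KC

section places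

variable {K : Type} [Field K] [Algebra ℂ K] {N : ℕ}

/-- the place which corresponds to `P` under the automorphism -/
noncomputable def pl (φ : K ≃ₐ[ℂ] K) (P : Place ℂ K) : Place ℂ K where
  ord f := P.ord (φ f)
  ord_zero := by rw [map_zero, P.ord_zero]
  ord_mul := by
    intro f g hf hg
    rw [map_mul, P.ord_mul (by simpa using hf) (by simpa using hg)]
  ord_add := by
    intro f g hf hg hfg
    rw [map_add]
    exact P.ord_add (by simpa using hf) (by simpa using hg)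
      (by rw [← map_add]; exact (map_ne_zero_iff _ φ.injective).2 hfg)
  ord_const := by intro c hc; rw [AlgEquiv.commutes, P.ord_const hc]
  surj := by
    obtain ⟨t, h0, ht⟩ := P.surj
    exact ⟨φ.symm t, by simpa using h0, by simpa using ht⟩

theorem pl_ord (φ : K ≃ₐ[ℂ] K) (P : Place ℂ K) (f : K) : (pl φ P).ord f = P.ord (φ f) := rfl

theorem pl_uniq {φ : K ≃ₐ[ℂ] K} {P P' : Place ℂ K} (h : ∀ f, P'.ord f = P.ord (φ f)) :
    P' = pl φ P := by
  ext f
  rw [h f, pl_ord]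

theorem divl_pl (φ : K ≃ₐ[ℂ] K) {P : Place ℂ K} (h : Divisorial N P) :
    Divisorial N (pl φ P) := by
  obtain ⟨u, hu⟩ := h
  refine ⟨fun i => φ.symm (u i), fun F hF => ?_⟩
  have h1 : aeval (fun i => φ.symm (u i)) F = φ.symm (aeval u F) := by
    have h2 := (MvPolynomial.comp_aeval_apply (f := u) (φ.symm : K →ₐ[ℂ] K) F).symm
    exact h2
  obtain ⟨h2, h3⟩ := hu F hF
  rw [h1]
  refine ⟨by simpa using h2, ?_⟩
  rw [pl_ord, AlgEquiv.apply_symm_apply, h3]

theorem ord_prd (P : Place ℂ K) {ι : Type} (s : Finset ι) {x : ι → K} (hx : ∀ b, x b ≠ 0) :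
    P.ord (∏ b ∈ s, x b) = ∑ b ∈ s, P.ord (x b) := by
  classical
  induction s using Finset.induction_on with
  | empty => simpa using P.ord_one
  | insert b s hb ih =>
    rw [Finset.prod_insert hb, Finset.sum_insert hb,
      P.ord_mul (hx b) (Finset.prod_ne_zero_iff.2 fun b _ => hx b), ih]

end places

variable {p N : ℕ} {K : Type} [Field K] [Algebra ℂ K] {N0 : ℕ} {g : Fin N0 → Fin p → ℤ}
  {f : Fin N0 → K} {δ : Fin p → Place ℂ K → ℚ}

/-- the matrix of the pullback -/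
def Pb (N : ℕ) (δ : Fin p → Place ℂ K → ℚ) (φ : K ≃ₐ[ℂ] K) (a : Matrix (Fin p) (Fin p) ℤ) :
    Prop :=
  ∃ (m : ℕ) (s : Fin p → K), 1 ≤ m ∧ (∀ i, s i ≠ 0) ∧
    ∀ (i : Fin p) (P P' : Place ℂ K), Divisorial N P → (∀ f, P'.ord f = P.ord (φ f)) →
      (m : ℚ) * (δ i P' - ∑ j, (a i j : ℚ) * δ j P) = P.ord (s i)

theorem pb_iff {φ : K ≃ₐ[ℂ] K} {a : Matrix (Fin p) (Fin p) ℤ} : Pb N δ φ a ↔
    ∃ (m : ℕ) (s : Fin p → K), 1 ≤ m ∧ (∀ i, s i ≠ 0) ∧
      ∀ (i : Fin p) (P : Place ℂ K), Divisorial N P →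
        (m : ℚ) * (δ i (pl φ P) - ∑ j, (a i j : ℚ) * δ j P) = P.ord (s i) := by
  constructor
  · rintro ⟨m, s, hm, hs, h⟩
    exact ⟨m, s, hm, hs, fun i P hP => h i P (pl φ P) hP fun _ => rfl⟩
  · rintro ⟨m, s, hm, hs, h⟩
    refine ⟨m, s, hm, hs, fun i P P' hP hP' => ?_⟩
    rw [pl_uniq hP']
    exact h i P hP

theorem pb_one : Pb N δ (AlgEquiv.refl : K ≃ₐ[ℂ] K) (1 : Matrix (Fin p) (Fin p) ℤ) := by
  classical
  rw [pb_iff]
  refine ⟨1, fun _ => 1, le_rfl, fun _ => one_ne_zero, fun i P _ => ?_⟩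
  have h1 : pl (AlgEquiv.refl : K ≃ₐ[ℂ] K) P = P := (pl_uniq fun _ => rfl).symm
  rw [h1, P.ord_one, Finset.sum_eq_single i]
  · simp
  · intro j _ hj
    rw [Matrix.one_apply_ne (Ne.symm hj)]
    simp
  · intro h
    exact absurd (Finset.mem_univ i) h

theorem pb_mul {φ ψ : K ≃ₐ[ℂ] K} {a b : Matrix (Fin p) (Fin p) ℤ} (h : Pb N δ φ a)
    (h' : Pb N δ ψ b) : Pb N δ (φ.trans ψ) (a * b) := by
  classical
  rw [pb_iff] at h h' ⊢
  obtain ⟨m, s, hm, hs, h1⟩ := h
  obtain ⟨m', s', hm', hs', h1'⟩ := h'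
  have hψ : ∀ i, ψ (s i) ≠ 0 := fun i => by simpa using hs i
  refine ⟨m * m', fun i => (∏ j, s' j ^ ((m : ℤ) * a i j)) * ψ (s i) ^ m', Nat.mul_pos hm hm',
    fun i => mul_ne_zero (Finset.prod_ne_zero_iff.2 fun j _ => zpow_ne_zero _ (hs' j))
      (pow_ne_zero _ (hψ i)), fun i P hP => ?_⟩
  have h2 : pl (φ.trans ψ) P = pl φ (pl ψ P) := (pl_uniq fun _ => rfl).symm
  rw [h2, P.ord_mul (Finset.prod_ne_zero_iff.2 fun j _ => zpow_ne_zero _ (hs' j))
    (pow_ne_zero _ (hψ i)), ord_prd P _ fun j => zpow_ne_zero _ (hs' j), P.ord_pow]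
  simp only [P.ord_zpow]
  have h3 := h1 i (pl ψ P) (divl_pl ψ hP)
  rw [pl_ord] at h3
  push_cast
  rw [← h3]
  have h4 : ∑ j, (m : ℚ) * (a i j : ℚ) * (P.ord (s' j) : ℚ) =
      ∑ j, (m : ℚ) * (a i j : ℚ) * ((m' : ℚ) * (δ j (pl ψ P) - ∑ l, (b j l : ℚ) * δ l P)) := by
    refine Finset.sum_congr rfl fun j _ => ?_
    rw [h1' j P hP]
  rw [h4]
  have h5 : ∑ l, ((a * b) i l : ℚ) * δ l P = ∑ j, (a i j : ℚ) * ∑ l, (b j l : ℚ) * δ l P := by
    simp only [Matrix.mul_apply, Finset.mul_sum]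
    push_cast
    simp only [Finset.sum_mul]
    rw [Finset.sum_comm]
    exact Finset.sum_congr rfl fun j _ => Finset.sum_congr rfl fun l _ => by ring
  have h6 : ∑ j, (m : ℚ) * (a i j : ℚ) * ((m' : ℚ) * (δ j (pl ψ P) - ∑ l, (b j l : ℚ) * δ l P)) =
      m * m' * (∑ j, (a i j : ℚ) * δ j (pl ψ P)) -
        m * m' * ∑ j, (a i j : ℚ) * ∑ l, (b j l : ℚ) * δ l P := by
    rw [Finset.mul_sum, Finset.mul_sum, ← Finset.sum_sub_distrib]
    exact Finset.sum_congr rfl fun j _ => by ring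
  rw [h5, h6]
  ring

theorem pb_inv {φ : K ≃ₐ[ℂ] K} {a b : Matrix (Fin p) (Fin p) ℤ} (h : Pb N δ φ a)
    (hba : b * a = 1) : Pb N δ φ.symm b := by
  classical
  rw [pb_iff] at h ⊢
  obtain ⟨m, s, hm, hs, h1⟩ := h
  have hφ : ∀ i, φ.symm (s i) ≠ 0 := fun i => by simpa using hs i
  refine ⟨m, fun k => ∏ i, φ.symm (s i) ^ (- b k i), hm,
    fun k => Finset.prod_ne_zero_iff.2 fun j _ => zpow_ne_zero _ (hφ j), fun k P hP => ?_⟩
  rw [ord_prd P _ fun j => zpow_ne_zero _ (hφ j)]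
  simp only [P.ord_zpow]
  have h2 : pl φ (pl φ.symm P) = P := by
    ext f
    rw [pl_ord, pl_ord, AlgEquiv.symm_apply_apply]
  have h3 : ∀ i, (m : ℚ) * (δ i P - ∑ j, (a i j : ℚ) * δ j (pl φ.symm P)) =
      P.ord (φ.symm (s i)) := fun i => by
    have h4 := h1 i (pl φ.symm P) (divl_pl φ.symm hP)
    rw [h2, pl_ord] at h4
    exact h4
  have h4 : ∑ i, (b k i : ℚ) * ∑ j, (a i j : ℚ) * δ j (pl φ.symm P) = δ k (pl φ.symm P) := by
    have h5 : ∑ i, (b k i : ℚ) * ∑ j, (a i j : ℚ) * δ j (pl φ.symm P) =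
        ∑ j, ((b * a) k j : ℚ) * δ j (pl φ.symm P) := by
      simp only [Matrix.mul_apply, Finset.mul_sum]
      push_cast
      simp only [Finset.sum_mul]
      rw [Finset.sum_comm]
      exact Finset.sum_congr rfl fun j _ => Finset.sum_congr rfl fun l _ => by ring
    rw [h5, hba, Finset.sum_eq_single k]
    · simp
    · intro j _ hj
      rw [Matrix.one_apply_ne (Ne.symm hj)]
      simp
    · intro h
      exact absurd (Finset.mem_univ k) h
  push_cast
  have h5 : ∑ i, -(b k i : ℚ) * (P.ord (φ.symm (s i)) : ℚ) =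
      - (m * ∑ i, (b k i : ℚ) * δ i P) +
        m * ∑ i, (b k i : ℚ) * ∑ j, (a i j : ℚ) * δ j (pl φ.symm P) := by
    rw [Finset.mul_sum, Finset.mul_sum, ← Finset.sum_neg_distrib, ← Finset.sum_add_distrib]
    refine Finset.sum_congr rfl fun i _ => ?_
    rw [← h3 i]
    ring
  rw [h5, h4]
  ring

/-- **The pullback of a semiample combination is semiample.** -/
theorem semi_pb {φ : K ≃ₐ[ℂ] K} {a : Matrix (Fin p) (Fin p) ℤ} (h : Pb N δ φ a)
    {μ : Fin p → ℚ} (hμ : SemiA N δ μ) : SemiA N δ fun j => ∑ i, μ i * a i j := by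
  classical
  rw [pb_iff] at h
  obtain ⟨m, s, hm, hs, h1⟩ := h
  obtain ⟨k, hk, ν, hν, hb⟩ := hμ
  have hm0 : (0 : ℚ) < m := by exact_mod_cast hm
  refine ⟨m * k, Nat.mul_pos hm hk, fun j => m * ∑ i, ν i * a i j, fun j => ?_, fun P hP => ?_⟩
  · push_cast
    rw [mul_assoc, Finset.mul_sum, Finset.mul_sum, Finset.mul_sum]
    refine Finset.sum_congr rfl fun i _ => ?_
    rw [← hν i]
    ring
  obtain ⟨η, hη0, hη, hle⟩ := hb (pl φ P) (divl_pl φ hP)
  have hφ : φ η ≠ 0 := by simpa using hη0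
  have hne : (∏ i, s i ^ ν i) ≠ 0 := Finset.prod_ne_zero_iff.2 fun i _ => zpow_ne_zero _ (hs i)
  -- the order of the section
  have key : ∀ Q : Place ℂ K, Divisorial N Q → (Q.ord (φ η ^ m * ∏ i, s i ^ ν i) : ℚ) =
      m * ((pl φ Q).ord η + ∑ i, (ν i : ℚ) * δ i (pl φ Q)) -
        ∑ j, ((m * ∑ i, ν i * a i j : ℤ) : ℚ) * δ j Q := by
    intro Q hQ
    rw [Q.ord_mul (pow_ne_zero _ hφ) hne, Q.ord_pow, ord_prd Q _ fun i => zpow_ne_zero _ (hs i)]
    simp only [Q.ord_zpow]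
    push_cast
    have h2 : ∑ i, (ν i : ℚ) * (Q.ord (s i) : ℚ) =
        m * ∑ i, (ν i : ℚ) * δ i (pl φ Q) - m * ∑ i, (ν i : ℚ) * ∑ j, (a i j : ℚ) * δ j Q := by
      rw [Finset.mul_sum, Finset.mul_sum, ← Finset.sum_sub_distrib]
      refine Finset.sum_congr rfl fun i _ => ?_
      rw [← h1 i Q hQ]
      ring
    have h3 : ∑ j, (m : ℚ) * (∑ i, (ν i : ℚ) * (a i j : ℚ)) * δ j Q =
        m * ∑ i, (ν i : ℚ) * ∑ j, (a i j : ℚ) * δ j Q := by
      simp only [Finset.mul_sum, Finset.sum_mul]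
      rw [Finset.sum_comm]
      exact Finset.sum_congr rfl fun i _ => Finset.sum_congr rfl fun j _ => by ring
    rw [h2, h3, pl_ord]
    ring
  refine ⟨φ η ^ m * ∏ i, s i ^ ν i, mul_ne_zero (pow_ne_zero _ hφ) hne, fun Q hQ => ?_, ?_⟩
  · right
    rw [key Q hQ]
    have h2 := (hη (pl φ Q) (divl_pl φ hQ)).resolve_left hη0
    have h3 : 0 ≤ (m : ℚ) * ((pl φ Q).ord η + ∑ i, (ν i : ℚ) * δ i (pl φ Q)) :=
      mul_nonneg hm0.le (by linarith)
    linarith
  · rw [key P hP]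
    have h3 : (m : ℚ) * ((pl φ P).ord η + ∑ i, (ν i : ℚ) * δ i (pl φ P)) ≤ 0 :=
      mul_nonpos_of_nonneg_of_nonpos hm0.le (by linarith)
    linarith

/-- the action of a matrix on the real combinations -/
def act (a : Matrix (Fin p) (Fin p) ℤ) (x : Fin p → ℝ) : Fin p → ℝ :=
  fun j => ∑ i, x i * (a i j : ℝ)

theorem act_mul (a b : Matrix (Fin p) (Fin p) ℤ) (x : Fin p → ℝ) :
    act b (act a x) = act (a * b) x := by
  funext l
  unfold act
  simp only [Matrix.mul_apply]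
  push_cast
  simp only [Finset.mul_sum, Finset.sum_mul]
  rw [Finset.sum_comm]
  exact Finset.sum_congr rfl fun i _ => Finset.sum_congr rfl fun j _ => by ring

theorem act_one (x : Fin p → ℝ) : act (1 : Matrix (Fin p) (Fin p) ℤ) x = x := by
  classical
  funext j
  unfold act
  rw [Finset.sum_eq_single j]
  · simp
  · intro i _ hi
    rw [Matrix.one_apply_ne hi]
    simp
  · intro h
    exact absurd (Finset.mem_univ j) h

theorem act_inj {a b : Matrix (Fin p) (Fin p) ℤ} (h : ∀ x, act a x = act b x) : a = b := by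
  classical
  ext i j
  have h1 := congrFun (h (Pi.single i 1)) j
  unfold act at h1
  rw [Finset.sum_eq_single i, Finset.sum_eq_single i] at h1
  · rw [Pi.single_eq_same, one_mul, one_mul] at h1
    exact_mod_cast h1
  · intro k _ hk
    rw [Pi.single_eq_of_ne hk, zero_mul]
  · intro h
    exact absurd (Finset.mem_univ i) h
  · intro k _ hk
    rw [Pi.single_eq_of_ne hk, zero_mul]
  · intro h
    exact absurd (Finset.mem_univ i) h

/-- the linear automorphism of an invertible matrix -/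
noncomputable def leq (a : GL (Fin p) ℤ) : (Fin p → ℝ) ≃ₗ[ℝ] (Fin p → ℝ) where
  toFun := act a.1
  map_add' := fun x y => by
    funext j
    unfold act
    simp only [Pi.add_apply, add_mul, Finset.sum_add_distrib]
  map_smul' := fun c x => by
    funext j
    unfold act
    simp only [Pi.smul_apply, smul_eq_mul, RingHom.id_apply, Finset.mul_sum]
    exact Finset.sum_congr rfl fun i _ => by ring
  invFun := act a⁻¹.1
  left_inv := fun x => by
    rw [act_mul, ← Units.val_mul, mul_inv_cancel, Units.val_one, act_one]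
  right_inv := fun x => by
    rw [act_mul, ← Units.val_mul, inv_mul_cancel, Units.val_one, act_one]

/-- the group of the automorphisms -/
def Gam (N : ℕ) (δ : Fin p → Place ℂ K → ℚ) : Subgroup ((Fin p → ℝ) ≃ₗ[ℝ] (Fin p → ℝ)) where
  carrier := {γ | ∃ (φ : K ≃ₐ[ℂ] K) (a : GL (Fin p) ℤ), Pb N δ φ a.1 ∧ ∀ x, γ x = act a.1 x}
  one_mem' := ⟨AlgEquiv.refl, 1, pb_one, fun x => (act_one x).symm⟩
  mul_mem' := by
    rintro γ γ' ⟨φ, a, h1, h2⟩ ⟨φ', a', h1', h2'⟩
    refine ⟨φ'.trans φ, a' * a, pb_mul h1' h1, fun x => ?_⟩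
    rw [LinearEquiv.mul_apply, h2, h2', act_mul, Units.val_mul]
  inv_mem' := by
    rintro γ ⟨φ, a, h1, h2⟩
    refine ⟨φ.symm, a⁻¹, pb_inv h1 (by rw [← Units.val_mul, inv_mul_cancel, Units.val_one]),
      fun x => ?_⟩
    change γ.symm x = _
    rw [LinearEquiv.symm_apply_eq, h2, act_mul, ← Units.val_mul, inv_mul_cancel, Units.val_one,
      act_one]

open Pool.Agent.Helper13KM

/-- the cone as a submodule -/
def coneSub {k : ℕ} (w : Fin k → Fin p → ℤ) : Submodule NNReal (Fin p → ℝ) where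
  carrier := coneR w
  zero_mem' := ⟨fun _ => 0, fun _ => le_rfl, fun i => by simp⟩
  add_mem' := by
    rintro x y ⟨t, ht, hx⟩ ⟨t', ht', hy⟩
    refine ⟨fun b => t b + t' b, fun b => add_nonneg (ht b) (ht' b), fun i => ?_⟩
    rw [Pi.add_apply, hx i, hy i, ← Finset.sum_add_distrib]
    exact Finset.sum_congr rfl fun b _ => by ring
  smul_mem' := by
    rintro c x ⟨t, ht, hx⟩
    refine ⟨fun b => c * t b, fun b => mul_nonneg c.2 (ht b), fun i => ?_⟩
    rw [NNReal.smul_def, Pi.smul_apply, smul_eq_mul, hx i, Finset.mul_sum]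
    exact Finset.sum_congr rfl fun b _ => by ring

theorem coneR_le {k : ℕ} {w : Fin k → Fin p → ℤ} {S : Submodule NNReal (Fin p → ℝ)}
    (h : ∀ b, (fun i => (w b i : ℝ)) ∈ S) {x : Fin p → ℝ} (hx : x ∈ coneR w) : x ∈ S := by
  obtain ⟨t, ht, hx⟩ := hx
  have h1 : x = ∑ b, (⟨t b, ht b⟩ : NNReal) • fun i => (w b i : ℝ) := by
    funext i
    rw [hx i, Finset.sum_apply]
    exact Finset.sum_congr rfl fun b _ => rfl
  rw [h1]
  exact S.sum_mem fun b _ => S.smul_mem _ (h b)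

theorem mem_coneR {k : ℕ} (w : Fin k → Fin p → ℤ) (b : Fin k) :
    (fun i => (w b i : ℝ)) ∈ coneR w := by
  classical
  refine ⟨Pi.single b 1, fun b' => ?_, fun i => ?_⟩
  · by_cases h : b' = b
    · rw [h, Pi.single_eq_same]
      exact zero_le_one
    · rw [Pi.single_eq_of_ne h]
  · rw [Finset.sum_eq_single b]
    · simp
    · intro b' _ hb'
      rw [Pi.single_eq_of_ne hb', zero_mul]
    · intro h
      exact absurd (Finset.mem_univ b) h

/-- a finite set of integral vectors as a family -/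
theorem cone_of_fin (T : Finset (Fin p → ℝ)) (hT : ∀ v ∈ T, IsInt v) :
    ∃ (k : ℕ) (w : Fin k → Fin p → ℤ),
      coneR w = (Submodule.span NNReal (T : Set (Fin p → ℝ)) : Set (Fin p → ℝ)) := by
  classical
  have h1 : ∀ b : Fin T.card, ∃ z : Fin p → ℤ, ∀ i, (T.equivFin.symm b).1 i = z i := fun b => by
    have h2 := hT _ (T.equivFin.symm b).2
    choose z hz using h2
    exact ⟨z, hz⟩
  choose w hw using h1
  have hw' : ∀ b, (fun i => (w b i : ℝ)) = (T.equivFin.symm b).1 := fun b => by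
    funext i
    rw [hw]
  refine ⟨_, w, Set.Subset.antisymm (fun x hx => coneR_le (fun b => ?_) hx) ?_⟩
  · rw [hw']
    exact Submodule.subset_span (T.equivFin.symm b).2
  · have h2 : Submodule.span NNReal (T : Set (Fin p → ℝ)) ≤ coneSub w := by
      rw [Submodule.span_le]
      intro v hv
      have h3 := mem_coneR w (T.equivFin ⟨v, hv⟩)
      rw [hw', Equiv.symm_apply_apply] at h3
      exact h3
    exact h2

/-- **The cone conjecture.** -/
theorem cone_conj (h : Gns N δ g f) (hi : Idp N δ) {P0 : Place ℂ K} (hP0 : Divisorial N P0)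
    {A : Fin p → ℚ} (hA : Amp N δ A) :
    ∃ (k : ℕ) (w : Fin k → Fin p → ℤ),
      (∀ x, x ∈ nefR N δ ↔ ∃ (φ : K ≃ₐ[ℂ] K) (a : GL (Fin p) ℤ), Pb N δ φ a.1 ∧
        ∃ y ∈ coneR w, x = act a.1 y) ∧
      ∀ (φ : K ≃ₐ[ℂ] K) (a : GL (Fin p) ℤ), Pb N δ φ a.1 →
        (interior (coneR w) ∩ act a.1 '' interior (coneR w)).Nonempty → a = 1 := by
  classical
  obtain ⟨k, w, ξ, h1, h2, h3, h4⟩ := nefR_eq h hi hP0 hA
  have hK : IsNefCone (coneSub w) := by
    refine ⟨coneR_closed h2, ⟨fun i => (A i : ℝ), ?_⟩, ?_⟩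
    · have h5 := amp_interior hA
      rw [h4] at h5
      exact h5
    · refine ⟨∑ i, (ξ i : ℝ) • (LinearMap.proj i : (Fin p → ℝ) →ₗ[ℝ] ℝ), ?_, ?_⟩
      · intro x hx
        choose m hm using hx
        refine ⟨∑ i, ξ i * m i, ?_⟩
        simp only [LinearMap.sum_apply, LinearMap.smul_apply, LinearMap.proj_apply, smul_eq_mul]
        push_cast
        exact Finset.sum_congr rfl fun i _ => by rw [hm i]
      · rintro x ⟨t, ht, hx⟩ hx0
        simp only [LinearMap.sum_apply, LinearMap.smul_apply, LinearMap.proj_apply, smul_eq_mul]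
        have h5 : ∑ i, (ξ i : ℝ) * x i = ∑ b, t b * ((∑ i, ξ i * w b i : ℤ) : ℝ) := by
          simp only [hx, Finset.mul_sum]
          rw [Finset.sum_comm]
          refine Finset.sum_congr rfl fun b _ => ?_
          push_cast
          rw [Finset.mul_sum]
          exact Finset.sum_congr rfl fun i _ => by ring
        rw [h5]
        have h6 : ∃ b, t b ≠ 0 := by
          by_contra hcon
          push Not at hcon
          apply hx0
          funext i
          rw [hx i]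
          simp [hcon]
        obtain ⟨b, hb⟩ := h6
        have h7 : ∀ b, 0 ≤ t b * ((∑ i, ξ i * w b i : ℤ) : ℝ) := fun b => by
          have h8 : (1 : ℝ) ≤ ((∑ i, ξ i * w b i : ℤ) : ℝ) := by exact_mod_cast h2 b
          exact mul_nonneg (ht b) (by linarith)
        refine Finset.sum_pos' (fun b _ => h7 b) ⟨b, Finset.mem_univ b, ?_⟩
        have h8 : (1 : ℝ) ≤ ((∑ i, ξ i * w b i : ℤ) : ℝ) := by exact_mod_cast h2 b
        exact mul_pos (lt_of_le_of_ne (ht b) (Ne.symm hb)) (by linarith)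
  have hΓ : ∀ γ ∈ Gam N δ, Preserves (coneSub w) γ := by
    rintro γ ⟨φ, a, ha, hγ⟩
    refine ⟨fun z hz => ?_, fun x hx => ?_⟩
    · choose m hm using hz
      intro j
      refine ⟨∑ i, m i * a.1 i j, ?_⟩
      rw [hγ]
      unfold act
      push_cast
      exact Finset.sum_congr rfl fun i _ => by rw [hm i]
    · obtain ⟨t, ht, hx⟩ := hx
      have h5 : ∀ b, ∃ s : Fin k → ℚ, (∀ b', 0 ≤ s b') ∧
          ∀ j, ∑ i, (w b i : ℚ) * a.1 i j = ∑ b', s b' * w b' j := fun b =>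
        h3 _ (semi_pb ha (h1 b))
      choose s hs hs' using h5
      refine ⟨fun b' => ∑ b, t b * s b b', fun b' => Finset.sum_nonneg fun b _ =>
        mul_nonneg (ht b) (by exact_mod_cast hs b b'), fun j => ?_⟩
      rw [hγ]
      unfold act
      simp only [hx, Finset.sum_mul]
      rw [Finset.sum_comm]
      rw [Finset.sum_comm (s := Finset.univ) (t := Finset.univ)
        (f := fun b' b => t b * (s b b' : ℝ) * (w b' j : ℝ))]
      refine Finset.sum_congr rfl fun b _ => ?_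
      have h6 : ((∑ i, (w b i : ℚ) * a.1 i j : ℚ) : ℝ) = ((∑ b', s b b' * w b' j : ℚ) : ℝ) := by
        rw [hs' b j]
      push_cast at h6
      have h7 : ∑ i, t b * (w b i : ℝ) * (a.1 i j : ℝ) = t b * ∑ i, (w b i : ℝ) * (a.1 i j : ℝ) := by
        rw [Finset.mul_sum]
        exact Finset.sum_congr rfl fun i _ => by ring
      rw [h7, h6, Finset.mul_sum]
      exact Finset.sum_congr rfl fun b' _ => by ring
  obtain ⟨η, hη, hst⟩ := exists_xi hK (Gam N δ) hΓ
  obtain ⟨s, hs⟩ : ∃ s : Finset (Fin p → ℝ), s = Finset.univ.image fun b i => (w b i : ℝ) :=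
    ⟨_, rfl⟩
  have hws : ∀ b, (fun i => (w b i : ℝ)) ∈ s := fun b => by
    rw [hs]
    exact Finset.mem_image_of_mem _ (Finset.mem_univ b)
  obtain ⟨T, hT1, hT2, -, -⟩ := dirichlet_fg hK hΓ hη hst s (fun v hv => by
    rw [hs] at hv
    obtain ⟨b, -, rfl⟩ := Finset.mem_image.1 hv
    exact ⟨mem_coneR w b, fun i => ⟨w b i, rfl⟩⟩) fun x hx => ⟨1, (Gam N δ).one_mem, x,
      coneR_le (fun b => Submodule.subset_span (hws b)) (interior_subset hx), rfl⟩
  obtain ⟨k', w', hw'⟩ := cone_of_fin T hT1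
  rw [hT2] at hw'
  refine ⟨k', w', fun x => ⟨fun hx => ?_, ?_⟩, ?_⟩
  · rw [h4] at hx
    have h5 : x ∈ ratCone (coneSub w) := by
      refine coneR_le (S := ratCone (coneSub w)) (fun b => ?_) hx
      exact Submodule.subset_span (s := {z | z ∈ coneSub w ∧ IsInt z})
        ⟨mem_coneR w b, fun i => ⟨w b i, rfl⟩⟩
    obtain ⟨γ, hγ, h6⟩ := dirichlet_cover hη hΓ h5
    obtain ⟨φ, a, ha, ha'⟩ := (Gam N δ).inv_mem hγ
    refine ⟨φ, a, ha, γ x, ?_, ?_⟩
    · rw [hw']
      exact h6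
    · rw [← ha']
      exact (γ.symm_apply_apply x).symm
  · rintro ⟨φ, a, ha, y, hy, rfl⟩
    rw [hw'] at hy
    have h5 : y ∈ coneSub w := ratCone_le _ hy.1
    rw [h4]
    exact (hΓ (leq a) ⟨φ, a, ha, fun _ => rfl⟩).2 y h5
  · rintro φ a ha ⟨y, hy, x, hx, hxy⟩
    rw [hw'] at hx hy
    have hm : leq a ∈ Gam N δ := ⟨φ, a, ha, fun _ => rfl⟩
    have hx1 := interior_subset hx
    have hy1 := interior_subset hy
    have hxy' : leq a x = y := hxy
    have h5 : leq a = 1 := by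
      refine eq_one_of_mem hst hm hx (le_antisymm ?_ (hx1.2 _ hm))
      have h6 := hy1.2 (leq a)⁻¹ ((Gam N δ).inv_mem hm)
      rw [← hxy'] at h6
      have h7 : (leq a)⁻¹ (leq a x) = x := (leq a).symm_apply_apply x
      rwa [h7] at h6
    refine Units.ext (act_inj fun x => ?_)
    have h6 : leq a x = x := by rw [h5]; rfl
    rw [Units.val_one, act_one]
    exact h6

end Pool.Agent.Helper15K1.KC
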