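import Pool.Agent.Helper15K1.MM.ExtM
import Pool.Agent.Q57.GM.Gor
import Pool.Agent.Q57.GG.App

/-!
The cone of the semiample combinations is finitely generated.
-/

set_option autoImplicit false
set_option linter.overlappingInstances false
set_option linter.unusedSectionVars false
set_option maxHeartbeats 1000000

open FF MvPolynomial Pool.Agent.W603.LV Pool.Agent.W602.GT Pool.Agent.W602.Cov
open Pool.Agent.Q57.FT Pool.Agent.Q57.CX Pool.Agent.Q57.HK Pool.Agent.Helper15K1.MM
open Pool.Agent.Q57.GM Pool.Agent.Q57.GG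

namespace Pool.Agent.Helper15K1.KC

section cones

variable {p N0 : ℕ}

/-- integral multiples of finitely many families of nonnegative rational numbers -/
theorem exists_den2 {ι : Type} [Fintype ι] (e : ι → ℚ) (he : ∀ b, 0 ≤ e b) :
    ∃ M : ℕ, 1 ≤ M ∧ ∃ e' : ι → ℕ, ∀ b, (M : ℚ) * e b = e' b := by
  classical
  obtain ⟨M, hM, e', he'⟩ := exists_den (fun b => e ((Fintype.equivFin ι).symm b))
    fun b => he _
  refine ⟨M, hM, fun b => e' (Fintype.equivFin ι b), fun b => ?_⟩
  have h1 := he' (Fintype.equivFin ι b)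
  simpa using h1

/-- **The intersection of finitely many cones is finitely generated.** -/
theorem inter_fg (g : Fin N0 → Fin p → ℤ) {ι : Type} [Fintype ι] [DecidableEq ι] (z0 : ι)
    (Z : ι → Finset (Fin N0)) :
    ∃ (k : ℕ) (h : Fin k → Fin p → ℤ), (∀ b z, CoG g (Z z) fun i => (h b i : ℚ)) ∧
      ∀ μ : Fin p → ℚ, (∀ z, CoG g (Z z) μ) →
        ∃ t : Fin k → ℚ, (∀ b, 0 ≤ t b) ∧ ∀ i, μ i = ∑ b, t b * h b i := by
  classical
  let L : (ι × Fin N0 → ℤ) →+ (((ι × Fin N0) ⊕ (ι × Fin N0)) ⊕ ((ι × Fin p) ⊕ (ι × Fin p)) → ℤ) :=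
    AddMonoidHom.mk' (fun γ => Sum.elim
      (Sum.elim (fun x => γ x) fun x => if x.2 ∈ Z x.1 then 0 else - γ x)
      (Sum.elim (fun x => ∑ b, γ (x.1, b) * g b x.2 - ∑ b, γ (z0, b) * g b x.2)
        fun x => -(∑ b, γ (x.1, b) * g b x.2 - ∑ b, γ (z0, b) * g b x.2))) (by
      intro x y
      funext s
      rcases s with (s | s) | (s | s)
      · rfl
      · simp only [Sum.elim_inl, Sum.elim_inr, Pi.add_apply]
        split_ifs
        · rfl
        · ring
      · simp only [Sum.elim_inl, Sum.elim_inr, Pi.add_apply, add_mul, Finset.sum_add_distrib]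
        ring
      · simp only [Sum.elim_inr, Pi.add_apply, add_mul, Finset.sum_add_distrib]
        ring)
  have hL1 : ∀ γ x, L γ (Sum.inl (Sum.inl x)) = γ x := fun _ _ => rfl
  have hL2 : ∀ γ x, L γ (Sum.inl (Sum.inr x)) = if x.2 ∈ Z x.1 then 0 else - γ x :=
    fun _ _ => rfl
  have hL3 : ∀ γ x, L γ (Sum.inr (Sum.inl x)) =
      ∑ b, γ (x.1, b) * g b x.2 - ∑ b, γ (z0, b) * g b x.2 := fun _ _ => rfl
  have hL4 : ∀ γ x, L γ (Sum.inr (Sum.inr x)) =
      -(∑ b, γ (x.1, b) * g b x.2 - ∑ b, γ (z0, b) * g b x.2) := fun _ _ => rfl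
  have hL : Function.Injective L := by
    rw [injective_iff_map_eq_zero]
    intro γ hγ
    funext x
    rw [← hL1 γ x, hγ]
    rfl
  obtain ⟨G, hG1, hG2⟩ := gordan L hL
  let eG : {g // g ∈ G} ≃ Fin (Fintype.card {g // g ∈ G}) := Fintype.equivFin _
  refine ⟨_, fun b i => ∑ b', (eG.symm b).1 (z0, b') * g b' i, fun b z => ?_, fun μ hμ => ?_⟩
  · obtain ⟨-, h1⟩ := hG1 _ (eG.symm b).2
    refine ⟨fun b' => ((eG.symm b).1 (z, b') : ℚ), fun b' => ?_, fun b' hb' => ?_, fun i => ?_⟩
    · have h2 := h1 (Sum.inl (Sum.inl (z, b')))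
      rw [hL1] at h2
      beta_reduce
      exact_mod_cast h2
    · have h2 := h1 (Sum.inl (Sum.inl (z, b')))
      have h3 := h1 (Sum.inl (Sum.inr (z, b')))
      rw [hL1] at h2
      rw [hL2, if_neg hb'] at h3
      have h4 : (eG.symm b).1 (z, b') = 0 := by linarith
      beta_reduce
      rw [h4]
      simp
    · have h2 := h1 (Sum.inr (Sum.inl (z, i)))
      have h3 := h1 (Sum.inr (Sum.inr (z, i)))
      rw [hL3] at h2
      rw [hL4] at h3
      have h4 : ∑ b', (eG.symm b).1 (z, b') * g b' i = ∑ b', (eG.symm b).1 (z0, b') * g b' i := by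
        linarith
      have h5 : ((∑ b', (eG.symm b).1 (z, b') * g b' i : ℤ) : ℚ) =
          ((∑ b', (eG.symm b).1 (z0, b') * g b' i : ℤ) : ℚ) := by rw [h4]
      beta_reduce
      rw [← h5]
      push_cast
      rfl
  · choose e he0 he1 he2 using hμ
    obtain ⟨M, hM, e', he'⟩ := exists_den2 (fun x : ι × Fin N0 => e x.1 x.2) fun x => he0 x.1 x.2
    have hM0 : (0 : ℚ) < M := by exact_mod_cast hM
    obtain ⟨γ, hγ⟩ : ∃ γ : ι × Fin N0 → ℤ, γ = fun x => (e' x : ℤ) := ⟨_, rfl⟩
    have hs : ∀ z i, ((∑ b, γ (z, b) * g b i : ℤ) : ℚ) = M * μ i := by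
      intro z i
      rw [hγ]
      push_cast
      rw [← he2 z i, Finset.mul_sum]
      refine Finset.sum_congr rfl fun b _ => ?_
      rw [← he' (z, b)]
      ring
    have hs' : ∀ z i, ∑ b, γ (z, b) * g b i = ∑ b, γ (z0, b) * g b i := by
      intro z i
      have h1 : ((∑ b, γ (z, b) * g b i : ℤ) : ℚ) = ((∑ b, γ (z0, b) * g b i : ℤ) : ℚ) := by
        rw [hs, hs]
      exact_mod_cast h1
    have hmem : γ ∈ AddSubmonoid.closure (G : Set (ι × Fin N0 → ℤ)) := by
      refine hG2 γ fun s => ?_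
      rcases s with (s | s) | (s | s)
      · rw [hL1, hγ]
        exact Int.natCast_nonneg _
      · rw [hL2]
        split_ifs with h1
        · exact le_rfl
        · have h2 := he' s
          rw [he1 s.1 s.2 h1, mul_zero] at h2
          have h3 : (e' s : ℤ) = 0 := by exact_mod_cast h2.symm
          rw [hγ]
          beta_reduce
          rw [h3]
          simp
      · rw [hL3, hs' s.1 s.2, sub_self]
      · rw [hL4, hs' s.1 s.2, sub_self, neg_zero]
    obtain ⟨n, hn⟩ := closure_comb G hmem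
    refine ⟨fun b => (n (eG.symm b).1 : ℚ) / M, fun b => by positivity, fun i => ?_⟩
    have h1 : ∑ b', γ (z0, b') * g b' i =
        ∑ b, (n (eG.symm b).1 : ℤ) * ∑ b', (eG.symm b).1 (z0, b') * g b' i := by
      rw [Equiv.sum_comp eG.symm fun x : {g // g ∈ G} =>
        (n x.1 : ℤ) * ∑ b', x.1 (z0, b') * g b' i]
      rw [Finset.sum_coe_sort G fun x => (n x : ℤ) * ∑ b', x (z0, b') * g b' i]
      conv_lhs => rw [hn]
      simp only [Finset.sum_apply, Finset.mul_sum, Finset.sum_mul]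
      rw [Finset.sum_comm]
      refine Finset.sum_congr rfl fun x _ => Finset.sum_congr rfl fun b' _ => ?_
      rw [Pi.smul_apply, nsmul_eq_mul]
      ring
    have h2 : (M : ℚ) * μ i = ∑ b, (n (eG.symm b).1 : ℚ) *
        ((∑ b', (eG.symm b).1 (z0, b') * g b' i : ℤ) : ℚ) := by
      rw [← hs z0 i, h1]
      push_cast
      rfl
    have h3 : ∑ b, (n (eG.symm b).1 : ℚ) / M *
        ((∑ b', (eG.symm b).1 (z0, b') * g b' i : ℤ) : ℚ) =
        (∑ b, (n (eG.symm b).1 : ℚ) *
        ((∑ b', (eG.symm b).1 (z0, b') * g b' i : ℤ) : ℚ)) / M := by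
      rw [Finset.sum_div]
      exact Finset.sum_congr rfl fun b _ => by ring
    rw [h3, ← h2]
    field_simp

end cones

variable {p N : ℕ} {K : Type} [Field K] [Algebra ℂ K] {N0 : ℕ} {g : Fin N0 → Fin p → ℤ}
  {f : Fin N0 → K} {δ : Fin p → Place ℂ K → ℚ}

/-- **The semiample combinations** are the points of the cones of the generators of minimal
order. -/
theorem semi_iff (h : Gns N δ g f) {P0 : Place ℂ K} (hP0 : Divisorial N P0) {μ : Fin p → ℚ} :
    SemiA N δ μ ↔ ∀ P : Place ℂ K, Divisorial N P → CoG g (tig g f δ P) μ := by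
  classical
  constructor
  · intro hμ P hP
    obtain ⟨e, he, hle⟩ := semi_rp h hμ hP
    have h1 : ∑ b, e b * (og f P b + ∑ i, (g b i : ℚ) * δ i P) ≤ 0 := by
      have h2 : ∑ b, e b * ∑ i, (g b i : ℚ) * δ i P = ∑ i, μ i * δ i P := by
        simp only [Finset.mul_sum]
        rw [Finset.sum_comm]
        refine Finset.sum_congr rfl fun i _ => ?_
        rw [← he.2 i, Finset.sum_mul]
        exact Finset.sum_congr rfl fun b _ => by ring
      simp only [mul_add, Finset.sum_add_distrib]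
      rw [h2]
      linarith
    have h3 : ∀ b ∈ Finset.univ, 0 ≤ e b * (og f P b + ∑ i, (g b i : ℚ) * δ i P) := by
      intro b _
      refine mul_nonneg (he.1 b) ?_
      have := ((h.1 b).2 P hP).resolve_left (h.1 b).1
      unfold og
      linarith
    have h4 := (Finset.sum_eq_zero_iff_of_nonneg h3).1 (le_antisymm h1 (Finset.sum_nonneg h3))
    refine ⟨e, he.1, fun b hb => ?_, he.2⟩
    rcases mul_eq_zero.1 (h4 b (Finset.mem_univ b)) with h5 | h5
    · exact h5
    · exfalso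
      apply hb
      unfold tig
      rw [Finset.mem_filter]
      refine ⟨Finset.mem_univ b, ?_⟩
      unfold og at h5
      linarith
  · intro hμ
    obtain ⟨e0, he0, -, he0'⟩ := hμ P0 hP0
    have h1 : SemP N δ μ fun P => ∑ i, μ i * δ i P := by
      refine semp_of_opt h ⟨e0, he0, he0'⟩ fun P hP => ?_
      obtain ⟨e, he, he1, he2⟩ := hμ P hP
      refine ⟨fun e' he' => low_bd h hP he', e, ⟨he, he2⟩, ?_⟩
      have h2 : ∑ b, e b * ∑ i, (g b i : ℚ) * δ i P = ∑ i, μ i * δ i P := by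
        simp only [Finset.mul_sum]
        rw [Finset.sum_comm]
        refine Finset.sum_congr rfl fun i _ => ?_
        rw [← he2 i, Finset.sum_mul]
        exact Finset.sum_congr rfl fun b _ => by ring
      rw [← h2, ← Finset.sum_neg_distrib]
      refine Finset.sum_congr rfl fun b _ => ?_
      by_cases hb : b ∈ tig g f δ P
      · unfold tig at hb
        have h3 := (Finset.mem_filter.1 hb).2
        unfold og
        rw [h3]
        ring
      · rw [he1 b hb]
        ring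
    obtain ⟨-, m, hm, ν, hν, hb⟩ := h1
    refine ⟨m, hm, ν, hν, fun P hP => ?_⟩
    obtain ⟨η, h2, h3, h4⟩ := hb P hP
    refine ⟨η, h2, h3, h4.trans (le_of_eq ?_)⟩
    rw [Finset.mul_sum]
    congr 1
    refine Finset.sum_congr rfl fun i _ => ?_
    rw [← hν i]
    ring

/-- **The cone of the semiample combinations is finitely generated.** -/
theorem semi_fg (h : Gns N δ g f) {P0 : Place ℂ K} (hP0 : Divisorial N P0) :
    ∃ (k : ℕ) (w : Fin k → Fin p → ℤ), (∀ b, SemiA N δ fun i => (w b i : ℚ)) ∧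
      ∀ μ : Fin p → ℚ, SemiA N δ μ →
        ∃ t : Fin k → ℚ, (∀ b, 0 ≤ t b) ∧ ∀ i, μ i = ∑ b, t b * w b i := by
  classical
  obtain ⟨k, w, h1, h2⟩ := inter_fg g
    (ι := {Z : Finset (Fin N0) // ∃ P, Divisorial N P ∧ Z = tig g f δ P})
    ⟨_, P0, hP0, rfl⟩ fun Z => Z.1
  refine ⟨k, w, fun b => (semi_iff h hP0).2 fun P hP => h1 b ⟨_, P, hP, rfl⟩, fun μ hμ => ?_⟩
  refine h2 μ ?_
  rintro ⟨Z, P, hP, rfl⟩
  exact (semi_iff h hP0).1 hμ P hP

end Pool.Agent.Helper15K1.KC
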