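import Pool.Agent.Helper15K1.KC.Mov

/-!
The cone conjecture for the small modifications, from the finite generation of the multigraded ring
of sections.
-/

set_option autoImplicit false
set_option linter.overlappingInstances false
set_option linter.unusedSectionVars false
set_option maxHeartbeats 1000000

open FF MvPolynomial Pool.Agent.W603.LV Pool.Agent.W602.GT Pool.Agent.W602.Cov
open Pool.Agent.Q57.FT Pool.Agent.Q57.CX Pool.Agent.Q57.HK Pool.Agent.Helper15K1.MM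

namespace Pool.Agent.Helper15K1.KC

variable {p N : ℕ} {K : Type} [Field K] [Algebra ℂ K] {δ : Fin p → Place ℂ K → ℚ}

/-- the effective cone -/
def effR (N : ℕ) (δ : Fin p → Place ℂ K → ℚ) : Set (Fin p → ℝ) :=
  {x | ∃ (k : ℕ) (ν : Fin k → Fin p → ℤ) (t : Fin k → ℝ),
    (∀ b, 0 ≤ t b ∧ ∃ f : K, f ≠ 0 ∧ ZSec N δ (ν b) f) ∧ ∀ i, x i = ∑ b, t b * (ν b i : ℝ)}

/-- generators without base points -/
theorem nef_bpf {N0 : ℕ} {g : Fin N0 → Fin p → ℤ} {f : Fin N0 → K} (h : Gns N δ g f)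
    (hi : Idp N δ) {P0 : Place ℂ K} (hP0 : Divisorial N P0) {A : Fin p → ℚ} (hA : Amp N δ A) :
    ∃ (k : ℕ) (w : Fin k → Fin p → ℤ), (∀ b, Bpf N δ (w b)) ∧ nefR N δ = coneR w := by
  obtain ⟨k, w, ξ, h1, h2, h3, h4⟩ := nefR_eq h hi hP0 hA
  choose m hm ν hν hb using h1
  refine ⟨k, ν, hb, ?_⟩
  have hm0 : ∀ b, (0 : ℝ) < m b := fun b => by exact_mod_cast hm b
  have hνr : ∀ b i, (ν b i : ℝ) = m b * (w b i : ℝ) := fun b i => by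
    have h5 := hν b i
    have h6 : (((m b : ℚ) * (w b i : ℚ) : ℚ) : ℝ) = ((ν b i : ℚ) : ℝ) := by rw [h5]
    push_cast at h6
    exact h6.symm
  rw [h4]
  ext x
  constructor
  · rintro ⟨t, ht, hx⟩
    refine ⟨fun b => t b / m b, fun b => div_nonneg (ht b) (hm0 b).le, fun i => ?_⟩
    rw [hx i]
    refine Finset.sum_congr rfl fun b _ => ?_
    have := (hm0 b).ne'
    rw [hνr]
    field_simp
  · rintro ⟨t, ht, hx⟩
    refine ⟨fun b => t b * m b, fun b => mul_nonneg (ht b) (hm0 b).le, fun i => ?_⟩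
    rw [hx i]
    refine Finset.sum_congr rfl fun b _ => ?_
    rw [hνr]
    ring

theorem nef_sub_eff {P0 : Place ℂ K} (hP0 : Divisorial N P0) {k : ℕ} {w : Fin k → Fin p → ℤ}
    (hw : ∀ b, Bpf N δ (w b)) : coneR w ⊆ effR N δ := by
  rintro x ⟨t, ht, hx⟩
  refine ⟨k, w, t, fun b => ⟨ht b, ?_⟩, hx⟩
  obtain ⟨η, h1, h2, -⟩ := hw b P0 hP0
  exact ⟨η, h1, h2⟩

theorem nefR_congr {δ' : Fin p → Place ℂ K → ℚ} (h : ∀ i P, Divisorial N P → δ i P = δ' i P) :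
    nefR N δ ⊆ nefR N δ' := by
  have hz : ∀ ν f, ZSec N δ ν f → ZSec N δ' ν f := by
    intro ν f hf P hP
    have h1 := hf P hP
    have h2 : ∑ i, (ν i : ℚ) * δ i P = ∑ i, (ν i : ℚ) * δ' i P :=
      Finset.sum_congr rfl fun i _ => by rw [h i P hP]
    rwa [h2] at h1
  refine closure_mono ?_
  rintro x ⟨μ, ⟨ε, hε, hA⟩, hx⟩
  refine ⟨μ, ⟨ε, hε, fun y hy => ?_⟩, hx⟩
  obtain ⟨k, hk, ν, hν, hb⟩ := hA y hy
  refine ⟨k, hk, ν, hν, fun P hP => ?_⟩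
  obtain ⟨f, h1, h2, h3⟩ := hb P hP
  refine ⟨f, h1, hz _ _ h2, h3.trans (le_of_eq ?_)⟩
  congr 1
  exact Finset.sum_congr rfl fun i _ => by rw [h i P hP]

/-- **The main theorem.** -/
theorem main_kc (hfg : (coxRing N δ).FG) (hi : Idp N δ) (hpl : ∃ P : Place ℂ K, Divisorial N P)
    {A : Fin p → ℚ} (hA : Amp N δ A) :
    (∀ δ', Sml N δ δ' →
      (∃ (k : ℕ) (w : Fin k → Fin p → ℤ), (∀ b, Bpf N δ' (w b)) ∧ nefR N δ' = coneR w) ∧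
      ∃ (k : ℕ) (w : Fin k → Fin p → ℤ),
        nefR N δ' ∩ effR N δ' = {x | ∃ (φ : K ≃ₐ[ℂ] K) (a : GL (Fin p) ℤ), Pb N δ' φ a.1 ∧
          ∃ y ∈ coneR w, x = act a.1 y} ∧
        ∀ (φ : K ≃ₐ[ℂ] K) (a : GL (Fin p) ℤ), Pb N δ' φ a.1 →
          (interior (coneR w) ∩ act a.1 '' interior (coneR w)).Nonempty → a = 1) ∧
    ∃ (k : ℕ) (Δ : Fin k → Fin p → Place ℂ K → ℚ), (∀ j, Sml N δ (Δ j)) ∧
      (∀ δ', Sml N δ δ' → ∃ j, ∀ i P, Divisorial N P → δ' i P = Δ j i P) ∧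
      ∀ μ : Fin p → ℚ, Mvb N δ μ ↔ ∃ j, (fun i => (μ i : ℝ)) ∈ nefR N (Δ j) := by
  obtain ⟨N0, g, f, hg1, hg2⟩ := gens_of_fg hfg
  have h : Gns N δ g f := ⟨hg1, hg2⟩
  obtain ⟨P0, hP0⟩ := hpl
  refine ⟨fun δ' hs => ?_, ?_⟩
  · obtain ⟨A', hA'⟩ := hs.2
    obtain ⟨k, w, hw, hnef⟩ := nef_bpf (gns_sml h hs) (idp_sml hi hs) hP0 hA'
    refine ⟨⟨k, w, hw, hnef⟩, ?_⟩
    obtain ⟨k', w', h1, h2⟩ := cone_conj (gns_sml h hs) (idp_sml hi hs) hP0 hA'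
    refine ⟨k', w', ?_, h2⟩
    rw [Set.inter_eq_left.2 (by rw [hnef]; exact nef_sub_eff hP0 hw)]
    ext x
    exact h1 x
  · obtain ⟨k, Δ, h1, h2⟩ := fin_sml h
    refine ⟨k, Δ, h1, h2, fun μ => ⟨fun hμ => ?_, ?_⟩⟩
    · obtain ⟨δ', hs, hn⟩ := nef_of_mvb h hP0 hA hμ
      obtain ⟨j, hj⟩ := h2 δ' hs
      exact ⟨j, nefR_congr hj hn⟩
    · rintro ⟨j, hj⟩
      exact mvb_of_nef h hi hP0 (h1 j) hj

end Pool.Agent.Helper15K1.KC
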