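import Pool.Agent.Helper15K1.KC.Aut

/-!
The movable cone is the union of the nef cones of the small modifications.
-/

set_option autoImplicit false
set_option linter.overlappingInstances false
set_option linter.unusedSectionVars false
set_option maxHeartbeats 1000000

open FF MvPolynomial Pool.Agent.W603.LV Pool.Agent.W602.GT Pool.Agent.W602.Cov
open Pool.Agent.Q57.FT Pool.Agent.Q57.CX Pool.Agent.Q57.HK Pool.Agent.Helper15K1.MM

namespace Pool.Agent.Helper15K1.KC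

section avoid

variable {p N0 : ℕ} {g : Fin N0 → Fin p → ℤ}

/-- the span of the generators in `B` as a subspace -/
def spS (g : Fin N0 → Fin p → ℤ) (B : Finset (Fin N0)) : Submodule ℚ (Fin p → ℚ) where
  carrier := {μ | Sp g B μ}
  zero_mem' := ⟨fun _ => 0, fun _ _ => rfl, fun i => by simp⟩
  add_mem' := by
    intro x y hx hy
    have h := sp_lin hx hy 1 1
    simp only [one_mul] at h
    exact h
  smul_mem' := by
    intro c x hx
    exact sp_smul hx c

/-- the combination is in general position -/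
def Gnr (g : Fin N0 → Fin p → ℤ) (A : Fin p → ℚ) : Prop :=
  ∀ B, Sp g B A → ∀ μ, Sp g B μ

theorem exists_gnr (g : Fin N0 → Fin p → ℤ) : ∃ v : Fin p → ℚ, Gnr g v := by
  classical
  obtain ⟨F, hF⟩ : ∃ F : Finset (Submodule ℚ (Fin p → ℚ)),
    F = (Finset.univ.filter fun B => spS g B ≠ ⊤).image (spS g) := ⟨_, rfl⟩
  have h1 : (⊤ : Submodule ℚ (Fin p → ℚ)) ∉ F := by
    rw [hF]
    intro h
    obtain ⟨B, hB, hB'⟩ := Finset.mem_image.1 h
    exact (Finset.mem_filter.1 hB).2 hB'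
  have h2 := Subspace.biUnion_ne_univ_of_top_notMem h1
  obtain ⟨v, hv⟩ := (Set.ne_univ_iff_exists_notMem _).1 h2
  refine ⟨v, fun B hB μ => ?_⟩
  by_contra hne
  apply hv
  have h3 : spS g B ≠ ⊤ := fun h => by
    apply hne
    have h4 : μ ∈ spS g B := by
      rw [h]
      exact Submodule.mem_top
    exact h4
  rw [Set.mem_iUnion₂]
  refine ⟨spS g B, ?_, hB⟩
  rw [hF]
  exact Finset.mem_image_of_mem _ (Finset.mem_filter.2 ⟨Finset.mem_univ B, h3⟩)

/-- the points of a half-line in a general direction are in general position near its origin -/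
theorem gnr_near {v : Fin p → ℚ} (hv : Gnr g v) (μ : Fin p → ℚ) :
    ∃ t0 : ℚ, 0 < t0 ∧ ∀ t, 0 < t → t < t0 → Gnr g (mu μ v t) := by
  classical
  have key : ∀ B : Finset (Fin N0), ∃ t0 : ℚ, 0 < t0 ∧ ∀ t, 0 < t → t < t0 →
      Sp g B (mu μ v t) → ∀ μ', Sp g B μ' := by
    intro B
    by_cases h : ∃ t1, 0 < t1 ∧ Sp g B (mu μ v t1)
    · obtain ⟨t1, ht1, h1⟩ := h
      refine ⟨t1, ht1, fun t ht ht' h2 => hv B ?_⟩
      have h3 := sp_smul (sp_lin h1 h2 1 (-1)) (1 / (t1 - t))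
      have h4 : (fun i => 1 / (t1 - t) * (1 * mu μ v t1 i + -1 * mu μ v t i)) = v := by
        funext i
        have h5 : t1 - t ≠ 0 := by linarith
        change 1 / (t1 - t) * (1 * (μ i + t1 * v i) + -1 * (μ i + t * v i)) = v i
        field_simp
        ring
      rwa [h4] at h3
    · push Not at h
      exact ⟨1, one_pos, fun t ht _ h2 => absurd h2 (h t ht)⟩
  choose t0 ht0 h using key
  obtain ⟨B0, -, hB0⟩ := Finset.exists_min_image (Finset.univ : Finset (Finset (Fin N0))) t0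
    ⟨∅, Finset.mem_univ _⟩
  exact ⟨t0 B0, ht0 B0, fun t ht ht' B hB => h B t ht
    (lt_of_lt_of_le ht' (hB0 B (Finset.mem_univ B))) hB⟩

/-- **The optimal basis along a general half-line.** -/
theorem exists_bas2 {μ v : Fin p → ℚ} {t0 t1 : ℚ} (hg : ∀ t, 0 < t → t < t0 → Gnr g (mu μ v t))
    (h0 : 0 < t1) (h1 : t1 < t0) {o : Fin N0 → ℚ}
    (hbd : ∃ v0 : ℚ, ∀ e, Rp g e (mu μ v t1) → v0 ≤ ∑ b, e b * o b)
    (hfe : ∃ e, Rp g e (mu μ v t1)) :
    ∃ B e, BasAt g μ v o t1 (Set.Ioo 0 t0) B e := by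
  classical
  obtain ⟨v0, hv0⟩ := hbd
  obtain ⟨e, he, hi, hopt⟩ := exists_min (w := fun b i => (g b i : ℚ)) (c := o) (v0 := v0)
    (μ := mu μ v t1) (fun e he => hv0 e he) hfe
  obtain ⟨B, hB⟩ : ∃ B : Finset (Fin N0), B = Finset.univ.filter fun b => e b ≠ 0 := ⟨_, rfl⟩
  have hB1 : ∀ b, e b = 0 ↔ b ∉ B := by
    intro b
    rw [hB]
    simp
  have hind : IndB g B := fun z hz hz' => hi z (fun b hb => hz b ((hB1 b).1 hb)) hz'
  have hspn : ∀ μ', Sp g B μ' :=
    hg t1 h0 h1 B ⟨e, fun b hb => (hB1 b).2 hb, he.2⟩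
  refine ⟨B, e, he, hopt, hB1, hind, hspn, fun t ht => ⟨ht.1.le, ?_⟩⟩
  obtain ⟨z, hz1, hz2, hz3⟩ := exists_coord hind hspn
  refine cog_of_coord hz1 hz2 fun b hb => ?_
  by_contra hneg
  push Not at hneg
  have hpos : 0 < ∑ j, mu μ v t1 j * z j b := by
    rw [← hz3 _ e (fun b hb => (hB1 b).2 hb) he.2 b]
    exact lt_of_le_of_ne (he.1 b) fun h => (hB1 b).1 h.symm hb
  change ∑ j, mu μ v t j * z j b < 0 at hneg
  rw [coord_mu] at hpos hneg
  obtain ⟨x, hx⟩ : ∃ x, x = ∑ j, μ j * z j b := ⟨_, rfl⟩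
  obtain ⟨y, hy⟩ : ∃ y, y = ∑ j, v j * z j b := ⟨_, rfl⟩
  rw [← hx, ← hy] at hpos hneg
  -- the time where the coordinate vanishes
  have hne : t ≠ t1 := fun h => by
    rw [h] at hneg
    linarith
  obtain ⟨s, hs0, hs1, hs2⟩ : ∃ s, 0 < s ∧ s < t0 ∧ x + s * y = 0 := by
    have hy0 : y ≠ 0 := fun h => by
      rw [h] at hpos hneg
      linarith
    refine ⟨-x / y, ?_, ?_, ?_⟩
    · rcases lt_or_gt_of_ne hy0 with hy1 | hy1
      · rw [lt_div_iff_of_neg hy1]
        have : 0 < t1 * (-y) := mul_pos h0 (by linarith)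
        linarith
      · rw [lt_div_iff₀ hy1]
        have : 0 < t * y := mul_pos ht.1 hy1
        linarith
    · rcases lt_or_gt_of_ne hy0 with hy1 | hy1
      · rw [div_lt_iff_of_neg hy1]
        have : t0 * y < t * y := mul_lt_mul_of_neg_right ht.2 hy1
        linarith
      · rw [div_lt_iff₀ hy1]
        have : t1 * y < t0 * y := mul_lt_mul_of_pos_right h1 hy1
        linarith
    · field_simp
      ring
  have h2 : ∑ j, mu μ v s j * z j b = 0 := by
    rw [coord_mu, ← hx, ← hy]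
    exact hs2
  have h3 : Sp g (B.erase b) (mu μ v s) := by
    refine ⟨fun b' => ∑ j, mu μ v s j * z j b', fun b' hb' => ?_, hz2 _⟩
    by_cases hbb : b' = b
    · rw [hbb]
      exact h2
    · have h4 : b' ∉ B := fun h5 => hb' (Finset.mem_erase.2 ⟨hbb, h5⟩)
      exact Finset.sum_eq_zero fun j _ => by rw [hz1 j b' h4, mul_zero]
  -- but the smaller span is not everything
  obtain ⟨y', hy1, hy2⟩ := hg s hs0 hs1 _ h3 (mu μ v t1)
  have h4 := hz3 (mu μ v t1) y' (fun b' hb' => hy1 b' fun h5 => hb' (Finset.mem_of_mem_erase h5))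
    hy2 b
  rw [hy1 b (Finset.notMem_erase b B), coord_mu, ← hx, ← hy] at h4
  linarith

end avoid

variable {p N : ℕ} {K : Type} [Field K] [Algebra ℂ K] {N0 : ℕ} {g : Fin N0 → Fin p → ℤ}
  {f : Fin N0 → K} {δ : Fin p → Place ℂ K → ℚ}

/-- a general ample combination -/
theorem exists_amp_gnr (g : Fin N0 → Fin p → ℤ) {A : Fin p → ℚ} (hA : Amp N δ A) :
    ∃ A', Amp N δ A' ∧ Gnr g A' := by
  obtain ⟨v, hv⟩ := exists_gnr g
  obtain ⟨t0, ht0, h⟩ := gnr_near hv A
  obtain ⟨ε, hε, hA'⟩ := hA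
  obtain ⟨C, hC0, hC⟩ : ∃ C : ℚ, 0 < C ∧ ∀ i, |v i| ≤ C := by
    refine ⟨∑ i, |v i| + 1, by positivity, fun i => ?_⟩
    have := Finset.single_le_sum (f := fun i => |v i|) (fun i _ => abs_nonneg _)
      (Finset.mem_univ i)
    linarith
  obtain ⟨t, ht⟩ : ∃ t, t = min (t0 / 2) (ε / 2 / C) := ⟨_, rfl⟩
  have ht1 : 0 < t := by
    rw [ht]
    exact lt_min (by linarith) (by positivity)
  have ht2 : t < t0 := by
    have : t ≤ t0 / 2 := by
      rw [ht]
      exact min_le_left _ _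
    linarith
  have ht3 : t * C ≤ ε / 2 := by
    have h1 : t ≤ ε / 2 / C := by
      rw [ht]
      exact min_le_right _ _
    rwa [le_div_iff₀ hC0] at h1
  refine ⟨mu A v t, ⟨ε / 2, by linarith, fun μ hμ => hA' μ fun i => ?_⟩, h t ht1 ht2⟩
  have h1 := hμ i
  have h2 : |mu A v t i - A i| ≤ ε / 2 := by
    change |A i + t * v i - A i| ≤ ε / 2
    rw [add_sub_cancel_left, abs_mul, abs_of_pos ht1]
    exact (mul_le_mul_of_nonneg_left (hC i) ht1.le).trans ht3
  have h3 : μ i - A i = (μ i - mu A v t i) + (mu A v t i - A i) := by ring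
  rw [h3]
  refine (abs_add_le _ _).trans ?_
  linarith

/-- a small modification -/
def Sml (N : ℕ) (δ δ' : Fin p → Place ℂ K → ℚ) : Prop :=
  (∀ μ f, ZSec N δ' μ f ↔ ZSec N δ μ f) ∧ ∃ A, Amp N δ' A

theorem gns_sml {δ' : Fin p → Place ℂ K → ℚ} (h : Gns N δ g f) (hs : Sml N δ δ') :
    Gns N δ' g f :=
  ⟨fun b => ⟨(h.1 b).1, (hs.1 _ _).2 (h.1 b).2⟩, fun μ η hη hη' => h.2 μ η hη ((hs.1 _ _).1 hη')⟩

theorem idp_sml {δ' : Fin p → Place ℂ K → ℚ} (h : Idp N δ) (hs : Sml N δ δ') : Idp N δ' := by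
  rintro μ ⟨f, hf, hf'⟩ ⟨f1, hf1, hf1'⟩
  exact h μ ⟨f, hf, (hs.1 _ _).1 hf'⟩ ⟨f1, hf1, (hs.1 _ _).1 hf1'⟩

/-- **There are finitely many small modifications.** -/
theorem fin_sml (h : Gns N δ g f) :
    ∃ (k : ℕ) (Δ : Fin k → Fin p → Place ℂ K → ℚ), (∀ j, Sml N δ (Δ j)) ∧
      ∀ δ', Sml N δ δ' → ∃ j, ∀ i P, Divisorial N P → δ' i P = Δ j i P := by
  classical
  obtain ⟨T, hT⟩ : ∃ T : Finset (Finset (Finset (Fin N0))),
    T = Finset.univ.filter fun S => ∃ (δ' : Fin p → Place ℂ K → ℚ) (lam : Fin p → ℚ),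
      Small N δ δ' lam ∧ sig g lam = S := ⟨_, rfl⟩
  have hmem : ∀ j : Fin T.card, ∃ (δ' : Fin p → Place ℂ K → ℚ) (lam : Fin p → ℚ),
      Small N δ δ' lam ∧ sig g lam = (T.equivFin.symm j).1 := by
    intro j
    have h1 := (T.equivFin.symm j).2
    have h2 : ∀ S ∈ T, ∃ (δ' : Fin p → Place ℂ K → ℚ) (lam : Fin p → ℚ),
      Small N δ δ' lam ∧ sig g lam = S := fun S hS => by
        rw [hT, Finset.mem_filter] at hS
        exact hS.2
    exact h2 _ h1
  choose Δ lam hΔ hsig using hmem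
  refine ⟨T.card, Δ, fun j => ⟨fun μ f => ((hΔ j).1 μ f).symm, lam j, (hΔ j).2⟩,
    fun δ' hδ' => ?_⟩
  obtain ⟨h1, A, hA⟩ := hδ'
  have hsm : Small N δ δ' A := ⟨fun μ f => (h1 μ f).symm, hA⟩
  have hST : sig g A ∈ T := by
    rw [hT, Finset.mem_filter]
    exact ⟨Finset.mem_univ _, δ', A, hsm, rfl⟩
  refine ⟨T.equivFin ⟨_, hST⟩, fun i P hP => ?_⟩
  refine eq_of_sig h hsm (hΔ _) ?_ hP i
  rw [hsig, Equiv.symm_apply_apply]

/-- movable combinations -/
def Mvb (N : ℕ) (δ : Fin p → Place ℂ K → ℚ) (μ : Fin p → ℚ) : Prop :=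
  ∃ (m : ℕ) (ν : Fin p → ℤ), 1 ≤ m ∧ (∀ i, (m : ℚ) * μ i = ν i) ∧
    (∃ s : K, s ≠ 0 ∧ ZSec N δ ν s) ∧ ∀ (ν' : Fin p → ℤ) (x : K),
      (∀ s, ZSec N δ ν s → ZSec N δ (ν + ν') (s * x)) → ZSec N δ ν' x

theorem mvb_pow {ν : Fin p → ℤ} (h : ∀ (ν' : Fin p → ℤ) (x : K),
      (∀ s, ZSec N δ ν s → ZSec N δ (ν + ν') (s * x)) → ZSec N δ ν' x) (n : ℕ) :
    ∀ (ν' : Fin p → ℤ) (x : K), (∀ s : Fin n → K, (∀ j, ZSec N δ ν (s j)) →
      ZSec N δ (n • ν + ν') ((∏ j, s j) * x)) → ZSec N δ ν' x := by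
  induction n with
  | zero =>
    intro ν' x hx
    have h1 := hx (fun _ => 1) fun j => j.elim0
    simpa using h1
  | succ n ih =>
    intro ν' x hx
    refine ih ν' x fun s hs => h _ _ fun s' hs' => ?_
    have h1 := hx (Fin.snoc (α := fun _ => K) s s') fun j => by
      refine Fin.lastCases ?_ (fun j => ?_) j
      · rw [Fin.snoc_last]
        exact hs'
      · rw [Fin.snoc_castSucc]
        exact hs j
    rw [Fin.prod_univ_castSucc] at h1
    simp only [Fin.snoc_castSucc, Fin.snoc_last] at h1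
    have h2 : (n + 1) • ν + ν' = ν + (n • ν + ν') := by
      rw [add_smul, one_smul]
      abel
    have h3 : (∏ j, s j) * s' * x = s' * ((∏ j, s j) * x) := by ring
    rw [h2, h3] at h1
    exact h1

theorem semiA_of_sem {δ' : Fin p → Place ℂ K → ℚ}
    (hz : ∀ μ f, ZSec N δ μ f → ZSec N δ' μ f) {μ : Fin p → ℚ}
    (h : SemP N δ μ fun P => ∑ i, μ i * δ' i P) : SemiA N δ' μ := by
  obtain ⟨-, m, hm, ν, hν, hb⟩ := h
  refine ⟨m, hm, ν, hν, fun P hP => ?_⟩
  obtain ⟨η, h1, h2, h3⟩ := hb P hP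
  refine ⟨η, h1, hz _ _ h2, h3.trans (le_of_eq ?_)⟩
  rw [Finset.mul_sum]
  congr 1
  refine Finset.sum_congr rfl fun i _ => ?_
  rw [← hν i]
  ring

/-- **Movable combinations are nef on a small modification.** -/
theorem nef_of_mvb (h : Gns N δ g f) {P0 : Place ℂ K} (hP0 : Divisorial N P0) {A : Fin p → ℚ}
    (hA : Amp N δ A) {μ : Fin p → ℚ} (hμ : Mvb N δ μ) :
    ∃ δ', Sml N δ δ' ∧ (fun i => (μ i : ℝ)) ∈ nefR N δ' := by
  classical
  obtain ⟨A', hA', hgA⟩ := exists_amp_gnr g hA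
  obtain ⟨t0, ht0, hgn⟩ := gnr_near hgA μ
  obtain ⟨m, ν, hm, hν, ⟨s0, hs0, hs0'⟩, hmv⟩ := hμ
  have hm0 : (0 : ℚ) < m := by exact_mod_cast hm
  obtain ⟨εA, hεA, hAs⟩ := hA'
  have hμe : ∃ e, Rp g e μ := by
    obtain ⟨e, he, -⟩ := rp_of_sec h hm hν hs0 hs0' P0
    exact ⟨e, he⟩
  have hAe : ∃ e, Rp g e A' := by
    obtain ⟨e, he, -⟩ := semi_rp h (hAs A' fun i => by simp [hεA.le]) hP0
    exact ⟨e, he⟩
  have hfe : ∀ t, 0 ≤ t → ∃ e, Rp g e (mu μ A' t) := by
    intro t ht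
    obtain ⟨e, he⟩ := hμe
    obtain ⟨e', he'⟩ := hAe
    exact ⟨_, rp_add he (rp_smul he' ht)⟩
  obtain ⟨t1, ht1⟩ : ∃ t1, t1 = t0 / 2 := ⟨_, rfl⟩
  have ht10 : 0 < t1 := by linarith
  have ht11 : t1 < t0 := by linarith
  have hbas : ∀ P, ∃ d : Fin p → ℚ, Divisorial N P → ∃ B e,
      BasAt g μ A' (og f P) t1 (Set.Ioo 0 t0) B e ∧
        ∀ ν, CoG g B ν → Opt g (og f P) ν (-(lv d ν)) := by
    intro P
    by_cases hP : Divisorial N P
    · obtain ⟨B, e, hB⟩ := exists_bas2 hgn ht10 ht11 (hbd h P hP _) (hfe t1 ht10.le)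
      obtain ⟨d, hd⟩ := hB.value
      exact ⟨d, fun _ => ⟨B, e, hB, hd⟩⟩
    · exact ⟨0, fun h => absurd h hP⟩
  choose d hd using hbas
  have hchm : Chm g μ A' (Divisorial N) (og f) t1 (Set.Ioo 0 t0) d := hd
  have hloc : ∀ t, 0 < t → t ≤ t1 → LocA g μ A' (Divisorial N) (og f) t (fun _ => True) d := by
    intro t h0 h1
    rcases eq_or_lt_of_le h1 with h2 | h2
    · exact hchm.inner (Or.inl h2)
    · exact hchm.inner (Or.inr ⟨t / 2, ⟨by linarith, by linarith⟩, Or.inr ⟨by linarith, h2⟩⟩)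
  obtain ⟨ε, hε, hopt⟩ := hloc t1 ht10 le_rfl
  obtain ⟨δ', hδ'⟩ : ∃ δ' : Fin p → Place ℂ K → ℚ, δ' = fun i P => d P i := ⟨_, rfl⟩
  have hlv : ∀ (x : Fin p → ℚ) P, lv (d P) x = ∑ i, x i * δ' i P := fun x P => by
    rw [hδ']
    exact Finset.sum_congr rfl fun i _ => mul_comm _ _
  -- a small multiple of an integral vector
  have hsmall : ∀ (r : ℚ), 0 < r → ∀ x : Fin p → ℤ, ∃ s : ℚ, 0 < s ∧ ∀ i, |s * (x i : ℚ)| ≤ r := by
    intro r hr x
    obtain ⟨C, hC0, hC⟩ : ∃ C : ℚ, 0 < C ∧ ∀ i, |(x i : ℚ)| ≤ C := by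
      refine ⟨∑ i, |(x i : ℚ)| + 1, by positivity, fun i => ?_⟩
      have := Finset.single_le_sum (f := fun i => |(x i : ℚ)|) (fun i _ => abs_nonneg _)
        (Finset.mem_univ i)
      linarith
    refine ⟨r / C, div_pos hr hC0, fun i => ?_⟩
    rw [abs_mul, abs_of_pos (div_pos hr hC0)]
    calc r / C * |(x i : ℚ)| ≤ r / C * C := mul_le_mul_of_nonneg_left (hC i) (div_pos hr hC0).le
      _ = r := by field_simp
  have hlin : ∀ (P : Place ℂ K) (x : Fin p → ℤ) (s : ℚ),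
      lv (d P) (fun i => mu μ A' t1 i + s * (x i : ℚ)) =
        lv (d P) (mu μ A' t1) + s * ∑ i, (x i : ℚ) * δ' i P := by
    intro P x s
    rw [hlv, hlv, Finset.mul_sum, ← Finset.sum_add_distrib]
    exact Finset.sum_congr rfl fun i _ => by ring
  -- the sections on `X` are sections for `δ'`
  have hz : ∀ x η, ZSec N δ x η → ZSec N δ' x η := by
    intro x η hη P hP
    by_cases h0 : η = 0
    · exact Or.inl h0
    right
    obtain ⟨s, hs, hs'⟩ := hsmall ε hε x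
    have h1 := hopt (fun i => mu μ A' t1 i + s * (x i : ℚ)) (fun i => by
      rw [add_sub_cancel_left]
      exact hs' i) trivial P hP
    have h2 := hopt (mu μ A' t1) (fun i => by simp [hε.le]) trivial P hP
    obtain ⟨e, he, hev⟩ := h2.2
    obtain ⟨e', he', hle⟩ := rp_of_sec h (m := 1) le_rfl (μ := fun i => (x i : ℚ)) (ν := x)
      (fun i => by simp) h0 hη P
    have h3 := h1.1 _ (rp_add he (rp_smul he' hs.le))
    have h4 : ∑ b, (e b + s * e' b) * og f P b = ∑ b, e b * og f P b + s * ∑ b, e' b * og f P b := by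
      rw [Finset.mul_sum, ← Finset.sum_add_distrib]
      exact Finset.sum_congr rfl fun b _ => by ring
    rw [h4, hev, hlin] at h3
    push_cast at hle
    have h5 : s * (- ∑ i, (x i : ℚ) * δ' i P) ≤ s * P.ord η := by
      have h6 := mul_le_mul_of_nonneg_left hle hs.le
      rw [one_mul] at h6
      linarith
    exact le_of_mul_le_mul_left h5 hs
  -- the other inclusion
  have hz' : ∀ x η, ZSec N δ' x η → ZSec N δ x η := by
    intro x η hη
    by_cases hη0 : η = 0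
    · rw [hη0]
      exact fun P _ => Or.inl rfl
    obtain ⟨s, hs, hs'⟩ := hsmall (min ε (t1 * εA)) (lt_min hε (mul_pos ht10 hεA)) x
    obtain ⟨c, hc⟩ : ∃ c : ℕ, 1 / s ≤ c * m := by
      obtain ⟨c, hc⟩ := exists_nat_ge (1 / s)
      refine ⟨c, hc.trans ?_⟩
      have h1 : (1 : ℚ) ≤ m := by exact_mod_cast hm
      have h2 : (0 : ℚ) ≤ c := Nat.cast_nonneg c
      nlinarith
    refine mvb_pow hmv c x η fun S hS P hP => ?_
    by_cases hprod : (∏ j, S j) = 0
    · left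
      rw [hprod, zero_mul]
    right
    have hSne : ∀ j, S j ≠ 0 := fun j h0 => hprod (Finset.prod_eq_zero (Finset.mem_univ j) h0)
    -- the minimal value at `μ`
    obtain ⟨e1, he1⟩ := hμe
    obtain ⟨v0, hv0⟩ := hbd h P hP μ
    obtain ⟨eμ, heμ, -, hmin⟩ := exists_min (w := fun b i => (g b i : ℚ)) (c := og f P)
      (v0 := v0) (μ := μ) (fun e he => hv0 e he) ⟨e1, he1⟩
    obtain ⟨V, hV⟩ : ∃ V, V = ∑ b, eμ b * og f P b := ⟨_, rfl⟩
    obtain ⟨Fp, hFp⟩ : ∃ Fp, Fp = ∑ i, μ i * δ i P + V := ⟨_, rfl⟩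
    have hF0 : 0 ≤ Fp := by
      have h1 := low_bd h hP (μ := μ) (e := eμ) heμ
      rw [hFp, hV]
      linarith
    -- the sections of `ν`
    have hSo : ∀ j, m * Fp - ∑ i, (ν i : ℚ) * δ i P ≤ P.ord (S j) := by
      intro j
      obtain ⟨e, he, hle⟩ := rp_of_sec h hm hν (hSne j) (hS j) P
      have h1 := hmin e he
      rw [← hV] at h1
      have h2 : (m : ℚ) * ∑ i, μ i * δ i P = ∑ i, (ν i : ℚ) * δ i P := by
        rw [Finset.mul_sum]
        refine Finset.sum_congr rfl fun i _ => ?_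
        rw [← hν i]
        ring
      have h3 := mul_le_mul_of_nonneg_left h1 hm0.le
      rw [hFp, mul_add, h2]
      linarith
    -- the bounds for the difference
    have hbnd : ∀ y : Fin p → ℚ, (∀ i, |y i - mu μ A' t1 i| ≤ min ε (t1 * εA)) →
        0 ≤ ∑ i, y i * δ i P - lv (d P) y ∧ ∑ i, y i * δ i P - lv (d P) y ≤ Fp := by
      intro y hy
      have h1 := hopt y (fun i => (hy i).trans (min_le_left _ _)) trivial P hP
      obtain ⟨e, he, hev⟩ := h1.2
      have h2 := low_bd h hP he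
      rw [hev] at h2
      refine ⟨by linarith, ?_⟩
      -- the difference with `μ` is semiample
      have h3 : SemiA N δ fun i => (y i - μ i) / t1 := by
        refine hAs _ fun i => ?_
        have h4 : (y i - μ i) / t1 - A' i = (y i - mu μ A' t1 i) / t1 := by
          change (y i - μ i) / t1 - A' i = (y i - (μ i + t1 * A' i)) / t1
          field_simp
          ring
        rw [h4, abs_div, abs_of_pos ht10, div_le_iff₀ ht10, mul_comm εA]
        exact (hy i).trans (min_le_right _ _)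
      obtain ⟨e3, he3, hle3⟩ := semi_rp h h3 hP
      have h5 := rp_add heμ (rp_smul he3 ht10.le)
      have h6 : (fun i => μ i + t1 * ((y i - μ i) / t1)) = y := by
        funext i
        field_simp
        ring
      rw [h6] at h5
      have h7 := h1.1 _ h5
      have h8 : ∑ b, (eμ b + t1 * e3 b) * og f P b = V + t1 * ∑ b, e3 b * og f P b := by
        rw [hV, Finset.mul_sum, ← Finset.sum_add_distrib]
        exact Finset.sum_congr rfl fun b _ => by ring
      rw [h8] at h7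
      have h9 : t1 * ∑ i, (y i - μ i) / t1 * δ i P = ∑ i, y i * δ i P - ∑ i, μ i * δ i P := by
        rw [Finset.mul_sum, ← Finset.sum_sub_distrib]
        refine Finset.sum_congr rfl fun i _ => ?_
        field_simp
      have h10 := mul_le_mul_of_nonneg_left hle3 ht10.le
      rw [mul_neg, h9] at h10
      rw [hFp]
      linarith
    obtain ⟨-, hb1⟩ := hbnd (mu μ A' t1) fun i => by
      rw [sub_self, abs_zero]
      exact (lt_min hε (mul_pos ht10 hεA)).le
    obtain ⟨hb2, -⟩ := hbnd (fun i => mu μ A' t1 i + s * (x i : ℚ)) fun i => by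
      rw [add_sub_cancel_left]
      exact hs' i
    have hdiff : - (Fp / s) ≤ ∑ i, (x i : ℚ) * δ i P - ∑ i, (x i : ℚ) * δ' i P := by
      have h1 : ∑ i, (mu μ A' t1 i + s * (x i : ℚ)) * δ i P =
          ∑ i, mu μ A' t1 i * δ i P + s * ∑ i, (x i : ℚ) * δ i P := by
        rw [Finset.mul_sum, ← Finset.sum_add_distrib]
        exact Finset.sum_congr rfl fun i _ => by ring
      rw [h1, hlin] at hb2
      have h2 : - Fp ≤ s * (∑ i, (x i : ℚ) * δ i P - ∑ i, (x i : ℚ) * δ' i P) := by linarith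
      rw [← neg_div, div_le_iff₀ hs]
      linarith
    have hη' := (hη P hP).resolve_left hη0
    rw [P.ord_mul hprod hη0, ord_prd P _ hSne]
    have h1 : ∑ i, ((c • ν + x) i : ℚ) * δ i P =
        c * ∑ i, (ν i : ℚ) * δ i P + ∑ i, (x i : ℚ) * δ i P := by
      rw [Finset.mul_sum, ← Finset.sum_add_distrib]
      refine Finset.sum_congr rfl fun i _ => ?_
      rw [Pi.add_apply, Pi.smul_apply, nsmul_eq_mul]
      push_cast
      ring
    have h2 : (c : ℚ) * (m * Fp - ∑ i, (ν i : ℚ) * δ i P) ≤ ∑ j, (P.ord (S j) : ℚ) := by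
      have h3 : ∑ _j : Fin c, (m * Fp - ∑ i, (ν i : ℚ) * δ i P) ≤ ∑ j, (P.ord (S j) : ℚ) :=
        Finset.sum_le_sum fun j _ => hSo j
      rw [Finset.sum_const, Finset.card_univ, Fintype.card_fin, nsmul_eq_mul] at h3
      exact h3
    have h3 : Fp / s ≤ c * m * Fp := by
      have h4 : Fp / s = 1 / s * Fp := by ring
      rw [h4]
      exact mul_le_mul_of_nonneg_right hc hF0
    rw [h1]
    push_cast
    nlinarith
  refine ⟨δ', ⟨fun x η => ⟨hz' x η, hz x η⟩, mu μ A' t1, ?_⟩, ?_⟩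
  · obtain ⟨ε', hε', h1⟩ := semN_of_loc h hP0 (hloc t1 ht10 le_rfl)
    rw [← hδ'] at h1
    exact ⟨ε', hε', fun y hy => semiA_of_sem hz (h1 y hy trivial)⟩
  · have hamp : ∀ t, 0 < t → t ≤ t1 → Amp N δ' (mu μ A' t) := by
      intro t h0 h1
      obtain ⟨ε', hε', h2⟩ := semN_of_loc h hP0 (hloc t h0 h1)
      rw [← hδ'] at h2
      exact ⟨ε', hε', fun y hy => semiA_of_sem hz (h2 y hy trivial)⟩
    refine mem_closure_of_tendsto (b := Filter.atTop)
      (f := fun n : ℕ => fun i => (μ i : ℝ) + 1 / ((n : ℝ) + 1) * (t1 * A' i : ℝ)) ?_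
      (Filter.Eventually.of_forall fun n => ?_)
    · rw [tendsto_pi_nhds]
      intro i
      have h2 : Filter.Tendsto (fun n : ℕ => 1 / ((n : ℝ) + 1)) Filter.atTop (nhds 0) :=
        tendsto_one_div_add_atTop_nhds_zero_nat
      have h3 := (h2.mul_const (t1 * A' i : ℝ)).const_add (μ i : ℝ)
      rw [zero_mul, add_zero] at h3
      exact h3
    · refine ⟨mu μ A' (1 / ((n : ℚ) + 1) * t1), hamp _ (by positivity) ?_, fun i => ?_⟩
      · have h1 : 1 / ((n : ℚ) + 1) ≤ 1 := by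
          rw [div_le_one (by positivity)]
          have : (0 : ℚ) ≤ n := Nat.cast_nonneg n
          linarith
        nlinarith
      · change (μ i : ℝ) + 1 / ((n : ℝ) + 1) * (t1 * A' i : ℝ) =
          ((μ i + 1 / ((n : ℚ) + 1) * t1 * A' i : ℚ) : ℝ)
        push_cast
        ring

/-- nef rational combinations are semiample -/
theorem semi_of_nef (h : Gns N δ g f) (hi : Idp N δ) {P0 : Place ℂ K} (hP0 : Divisorial N P0)
    {A : Fin p → ℚ} (hA : Amp N δ A) {μ : Fin p → ℚ}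
    (hμ : (fun i => (μ i : ℝ)) ∈ nefR N δ) : SemiA N δ μ := by
  obtain ⟨k, w, ξ, h1, h2, h3, h4⟩ := nefR_eq h hi hP0 hA
  rw [h4] at hμ
  obtain ⟨t, ht, ht'⟩ := rat_of_real hμ
  have h5 := semi_sum h hP0 Finset.univ (fun b _ => ht b) fun b _ => h1 b
  have h6 : (fun i => ∑ b, t b * (w b i : ℚ)) = μ := by
    funext i
    rw [ht' i]
  rwa [h6] at h5

/-- **Nef combinations on a small modification are movable.** -/
theorem mvb_of_nef (h : Gns N δ g f) (hi : Idp N δ) {P0 : Place ℂ K} (hP0 : Divisorial N P0)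
    {δ' : Fin p → Place ℂ K → ℚ} (hs : Sml N δ δ') {μ : Fin p → ℚ}
    (hμ : (fun i => (μ i : ℝ)) ∈ nefR N δ') : Mvb N δ μ := by
  obtain ⟨hz, A, hA⟩ := hs
  obtain ⟨m, hm, ν, hν, hb⟩ := semi_of_nef (gns_sml h ⟨hz, A, hA⟩) (idp_sml hi ⟨hz, A, hA⟩) hP0 hA hμ
  refine ⟨m, ν, hm, hν, ?_, fun ν' x hx => ?_⟩
  · obtain ⟨η, h1, h2, -⟩ := hb P0 hP0
    exact ⟨η, h1, (hz _ _).1 h2⟩
  · rw [← hz]
    intro P hP
    by_cases hx0 : x = 0
    · exact Or.inl hx0
    right
    obtain ⟨η, h1, h2, h3⟩ := hb P hP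
    have h4 := (((hz _ _).2 (hx η ((hz _ _).1 h2))) P hP).resolve_left (mul_ne_zero h1 hx0)
    rw [P.ord_mul h1 hx0] at h4
    have h5 : ∑ i, ((ν + ν') i : ℚ) * δ' i P =
        ∑ i, (ν i : ℚ) * δ' i P + ∑ i, (ν' i : ℚ) * δ' i P := by
      rw [← Finset.sum_add_distrib]
      refine Finset.sum_congr rfl fun i _ => ?_
      rw [Pi.add_apply]
      push_cast
      ring
    rw [h5] at h4
    push_cast at h4
    linarith

end Pool.Agent.Helper15K1.KC
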