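import Pool.Agent.Helper15K1.KC.Fg
import Pool.Agent.Helper13KM.Main

/-!
The nef cone of the real combinations.
-/

set_option autoImplicit false
set_option linter.overlappingInstances false
set_option linter.unusedSectionVars false
set_option maxHeartbeats 1000000

open FF MvPolynomial Pool.Agent.W603.LV Pool.Agent.W602.GT Pool.Agent.W602.Cov
open Pool.Agent.Q57.FT Pool.Agent.Q57.CX Pool.Agent.Q57.HK Pool.Agent.Helper15K1.MM
open Pool.Agent.Q57.GM Pool.Agent.Q57.GG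

namespace Pool.Agent.Helper15K1.KC

variable {p N : ℕ} {K : Type} [Field K] [Algebra ℂ K] {N0 : ℕ} {g : Fin N0 → Fin p → ℤ}
  {f : Fin N0 → K} {δ : Fin p → Place ℂ K → ℚ}

theorem rp_sum {ι : Type} (s : Finset ι) {c : ι → ℚ} (hc : ∀ b ∈ s, 0 ≤ c b)
    {e : ι → Fin N0 → ℚ} {μ : ι → Fin p → ℚ} (h : ∀ b ∈ s, Rp g (e b) (μ b)) :
    Rp g (fun b' => ∑ b ∈ s, c b * e b b') (fun i => ∑ b ∈ s, c b * μ b i) := by
  refine ⟨fun b' => Finset.sum_nonneg fun b hb => mul_nonneg (hc b hb) ((h b hb).1 b'),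
    fun i => ?_⟩
  simp only [Finset.sum_mul]
  rw [Finset.sum_comm]
  refine Finset.sum_congr rfl fun b hb => ?_
  rw [← (h b hb).2 i, Finset.mul_sum]
  exact Finset.sum_congr rfl fun b' _ => by ring

theorem cog_lin {B : Finset (Fin N0)} {μ μ' : Fin p → ℚ} (h : CoG g B μ) (h' : CoG g B μ')
    {s s' : ℚ} (hs : 0 ≤ s) (hs' : 0 ≤ s') : CoG g B fun i => s * μ i + s' * μ' i := by
  obtain ⟨e, h1, h2, h3⟩ := h
  obtain ⟨e', h1', h2', h3'⟩ := h'
  refine ⟨fun b => s * e b + s' * e' b, fun b => add_nonneg (mul_nonneg hs (h1 b))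
    (mul_nonneg hs' (h1' b)), fun b hb => by simp [h2 b hb, h2' b hb], fun i => ?_⟩
  beta_reduce
  rw [← h3 i, ← h3' i, Finset.mul_sum, Finset.mul_sum, ← Finset.sum_add_distrib]
  exact Finset.sum_congr rfl fun b _ => by ring

theorem semi_lin (h : Gns N δ g f) {P0 : Place ℂ K} (hP0 : Divisorial N P0) {μ μ' : Fin p → ℚ}
    (hμ : SemiA N δ μ) (hμ' : SemiA N δ μ') {s s' : ℚ} (hs : 0 ≤ s) (hs' : 0 ≤ s') :
    SemiA N δ fun i => s * μ i + s' * μ' i := by
  rw [semi_iff h hP0] at hμ hμ' ⊢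
  exact fun P hP => cog_lin (hμ P hP) (hμ' P hP) hs hs'

theorem semi_zero (h : Gns N δ g f) {P0 : Place ℂ K} (hP0 : Divisorial N P0) :
    SemiA N δ (0 : Fin p → ℚ) := by
  rw [semi_iff h hP0]
  exact fun P hP => ⟨fun _ => 0, fun _ => le_rfl, fun _ _ => rfl, fun i => by simp⟩

theorem semi_sum (h : Gns N δ g f) {P0 : Place ℂ K} (hP0 : Divisorial N P0) {ι : Type}
    (s : Finset ι) {c : ι → ℚ} (hc : ∀ b ∈ s, 0 ≤ c b) {μ : ι → Fin p → ℚ}
    (hμ : ∀ b ∈ s, SemiA N δ (μ b)) : SemiA N δ fun i => ∑ b ∈ s, c b * μ b i := by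
  classical
  induction s using Finset.induction_on with
  | empty =>
    simp only [Finset.sum_empty]
    exact semi_zero h hP0
  | insert b s hb ih =>
    have h1 := ih (fun b' hb' => hc b' (Finset.mem_insert_of_mem hb'))
      fun b' hb' => hμ b' (Finset.mem_insert_of_mem hb')
    have h2 := semi_lin h hP0 (hμ b (Finset.mem_insert_self b s)) h1
      (hc b (Finset.mem_insert_self b s)) zero_le_one
    simp only [Finset.sum_insert hb]
    simpa using h2

/-- ample plus semiample is ample -/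
theorem amp_add (h : Gns N δ g f) {P0 : Place ℂ K} (hP0 : Divisorial N P0) {A μ : Fin p → ℚ}
    (hA : Amp N δ A) (hμ : SemiA N δ μ) {s : ℚ} (hs : 0 < s) :
    Amp N δ fun i => μ i + s * A i := by
  obtain ⟨ε, hε, hA'⟩ := hA
  refine ⟨s * ε, mul_pos hs hε, fun μ' hμ' => ?_⟩
  have h1 := hA' (fun i => (μ' i - μ i) / s) fun i => by
    have h2 := hμ' i
    have h3 : (μ' i - μ i) / s - A i = (μ' i - (μ i + s * A i)) / s := by
      field_simp
      ring
    rw [h3, abs_div, abs_of_pos hs, div_le_iff₀ hs]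
    linarith
  have h2 := semi_lin h hP0 hμ h1 zero_le_one hs.le
  have h3 : (fun i => 1 * μ i + s * ((μ' i - μ i) / s)) = μ' := by
    funext i
    field_simp
    ring
  rwa [h3] at h2

/-- generators different from zero -/
theorem semi_fg' (h : Gns N δ g f) {P0 : Place ℂ K} (hP0 : Divisorial N P0) :
    ∃ (k : ℕ) (w : Fin k → Fin p → ℤ), (∀ b, w b ≠ 0 ∧ SemiA N δ fun i => (w b i : ℚ)) ∧
      ∀ μ : Fin p → ℚ, SemiA N δ μ →
        ∃ t : Fin k → ℚ, (∀ b, 0 ≤ t b) ∧ ∀ i, μ i = ∑ b, t b * w b i := by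
  classical
  obtain ⟨k, w, hw, hμ⟩ := semi_fg h hP0
  obtain ⟨S, hS⟩ : ∃ S : Finset (Fin k), S = Finset.univ.filter fun b => w b ≠ 0 := ⟨_, rfl⟩
  refine ⟨S.card, fun b => w (S.equivFin.symm b), fun b => ⟨?_, hw _⟩, fun μ hμs => ?_⟩
  · have h1 := (S.equivFin.symm b).2
    have h2 : ∀ x ∈ S, w x ≠ 0 := fun x hx => by
      rw [hS, Finset.mem_filter] at hx
      exact hx.2
    exact h2 _ h1
  · obtain ⟨t, ht, ht'⟩ := hμ μ hμs
    refine ⟨fun b => t (S.equivFin.symm b), fun b => ht _, fun i => ?_⟩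
    rw [ht' i, Equiv.sum_comp S.equivFin.symm fun x : S => t x * (w x i : ℚ),
      Finset.sum_coe_sort S fun x => t x * (w x i : ℚ)]
    refine (Finset.sum_subset (Finset.subset_univ S) fun x _ hx => ?_).symm
    have h1 : w x = 0 := by
      by_contra hne
      apply hx
      rw [hS, Finset.mem_filter]
      exact ⟨Finset.mem_univ x, hne⟩
    rw [h1]
    simp

/-- no nonzero combination and its negative are effective -/
def Idp (N : ℕ) (δ : Fin p → Place ℂ K → ℚ) : Prop :=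
  ∀ μ : Fin p → ℤ, (∃ f : K, f ≠ 0 ∧ ZSec N δ μ f) → (∃ f : K, f ≠ 0 ∧ ZSec N δ (-μ) f) → μ = 0

theorem idp_rp (h : Gns N δ g f) (hi : Idp N δ) {μ : Fin p → ℚ} {e e' : Fin N0 → ℚ}
    (he : Rp g e μ) (he' : Rp g e' fun i => - μ i) : μ = 0 := by
  classical
  obtain ⟨M, hM, x, hx⟩ := exists_den2 (Sum.elim e e') fun b => by
    rcases b with b | b
    · exact he.1 b
    · exact he'.1 b
  have hM0 : (0 : ℚ) < M := by exact_mod_cast hM
  have h1 : ∀ b, (M : ℚ) * e b = x (Sum.inl b) := fun b => hx (Sum.inl b)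
  have h2 : ∀ b, (M : ℚ) * e' b = x (Sum.inr b) := fun b => hx (Sum.inr b)
  obtain ⟨ν, hν⟩ : ∃ ν : Fin p → ℤ, ∀ i, (M : ℚ) * μ i = ν i := by
    refine ⟨fun i => ∑ b, (x (Sum.inl b) : ℤ) * g b i, fun i => ?_⟩
    rw [← he.2 i, Finset.mul_sum]
    push_cast
    refine Finset.sum_congr rfl fun b _ => ?_
    rw [← h1 b]
    ring
  obtain ⟨h3, h4, -⟩ := mono_of_rp h he h1 hν
  obtain ⟨h5, h6, -⟩ := mono_of_rp h he' h2 (ν := -ν) fun i => by
    rw [Pi.neg_apply, Int.cast_neg, ← hν i]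
    ring
  have h7 := hi ν ⟨_, h3, h4⟩ ⟨_, h5, h6⟩
  funext i
  have h8 := hν i
  rw [h7] at h8
  rw [Pi.zero_apply] at h8 ⊢
  rw [Int.cast_zero] at h8
  rcases mul_eq_zero.1 h8 with h9 | h9
  · exact absurd h9 hM0.ne'
  · exact h9

/-- there are no real relations with nonnegative coefficients -/
theorem no_rel (h : Gns N δ g f) (hi : Idp N δ) {P0 : Place ℂ K} (hP0 : Divisorial N P0) {k : ℕ}
    {w : Fin k → Fin p → ℤ} (hw : ∀ b, w b ≠ 0 ∧ SemiA N δ fun i => (w b i : ℚ))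
    (t : Fin k → ℝ) (ht : ∀ b, 0 ≤ t b) (h0 : ∀ i, ∑ b, t b * (w b i : ℝ) = 0) :
    ∀ b, t b = 0 := by
  classical
  obtain ⟨N1, hh, h1, h2⟩ := real_cone (q := k) (ι := Fin p ⊕ Fin p)
    (Sum.elim (fun i b => w b i) fun i b => - w b i)
  have h3 : ∀ c i, ∑ b, (hh c b : ℚ) * (w b i : ℚ) = 0 := by
    intro c i
    have h4 := h1 c (Sum.inl i)
    have h5 := h1 c (Sum.inr i)
    simp only [Sum.elim_inl, Sum.elim_inr] at h4 h5
    have h6 : ∑ b, (-w b i) * (hh c b : ℤ) = - ∑ b, w b i * (hh c b : ℤ) := by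
      rw [← Finset.sum_neg_distrib]
      exact Finset.sum_congr rfl fun b _ => by ring
    rw [h6] at h5
    have h7 : ∑ b, w b i * (hh c b : ℤ) = 0 := by linarith
    have h8 : ((∑ b, w b i * (hh c b : ℤ) : ℤ) : ℚ) = 0 := by rw [h7]; simp
    rw [← h8]
    push_cast
    exact Finset.sum_congr rfl fun b _ => by ring
  have hrp : ∀ b, ∃ e, Rp g e fun i => (w b i : ℚ) := fun b => by
    obtain ⟨e, he, -⟩ := semi_rp h (hw b).2 hP0
    exact ⟨e, he⟩
  choose e he using hrp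
  have h4 : ∀ c b, hh c b = 0 := by
    intro c b0
    by_contra hne
    have h5 := rp_smul (he b0) (Nat.cast_nonneg (α := ℚ) (hh c b0))
    have h6 := rp_sum (g := g) (Finset.univ.erase b0) (c := fun b => (hh c b : ℚ))
      (fun b _ => by positivity) (e := e) (μ := fun b i => (w b i : ℚ)) fun b _ => he b
    have h7 : (fun i => ∑ b ∈ Finset.univ.erase b0, (hh c b : ℚ) * (w b i : ℚ)) =
        fun i => - ((hh c b0 : ℚ) * (w b0 i : ℚ)) := by
      funext i
      have h8 := h3 c i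
      rw [← Finset.add_sum_erase Finset.univ _ (Finset.mem_univ b0)] at h8
      linarith
    rw [h7] at h6
    have h8 := idp_rp h hi h5 h6
    apply (hw b0).1
    funext i
    have h9 := congrFun h8 i
    simp only [Pi.zero_apply] at h9
    rcases mul_eq_zero.1 h9 with h10 | h10
    · exact absurd (by exact_mod_cast h10) hne
    · exact_mod_cast h10
  obtain ⟨s, hs, hs'⟩ := h2 t ht (by
    rintro (i | i)
    · simp only [Sum.elim_inl]
      have h5 : ∑ b, (w b i : ℝ) * t b = ∑ b, t b * (w b i : ℝ) :=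
        Finset.sum_congr rfl fun b _ => mul_comm _ _
      rw [h5, h0]
    · simp only [Sum.elim_inr]
      have h5 : ∑ b, ((-w b i : ℤ) : ℝ) * t b = - ∑ b, t b * (w b i : ℝ) := by
        rw [← Finset.sum_neg_distrib]
        push_cast
        exact Finset.sum_congr rfl fun b _ => by ring
      rw [h5, h0, neg_zero])
  intro b
  rw [hs' b]
  refine Finset.sum_eq_zero fun c _ => ?_
  rw [h4 c b]
  simp

/-- **An integral form which is positive on the generators.** -/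
theorem exists_form {k : ℕ} (w : Fin k → Fin p → ℤ)
    (hno : ∀ t : Fin k → ℝ, (∀ b, 0 ≤ t b) → (∀ i, ∑ b, t b * (w b i : ℝ) = 0) → ∀ b, t b = 0) :
    ∃ ξ : Fin p → ℤ, ∀ b, 1 ≤ ∑ i, ξ i * w b i := by
  classical
  let L : (Fin k → ℝ) →ₗ[ℝ] (Fin p → ℝ) :=
    { toFun := fun t i => ∑ b, t b * (w b i : ℝ)
      map_add' := fun x y => by
        funext i
        simp only [Pi.add_apply, add_mul, Finset.sum_add_distrib]
      map_smul' := fun c x => by
        funext i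
        simp only [Pi.smul_apply, smul_eq_mul, RingHom.id_apply, Finset.mul_sum]
        exact Finset.sum_congr rfl fun b _ => by ring }
  have hLa : ∀ t i, L t i = ∑ b, t b * (w b i : ℝ) := fun _ _ => rfl
  have hLc : Continuous L := LinearMap.continuous_of_finiteDimensional L
  have hcomp : IsCompact (L '' stdSimplex ℝ (Fin k)) := (isCompact_stdSimplex ℝ (Fin k)).image hLc
  have hconv : Convex ℝ (L '' stdSimplex ℝ (Fin k)) := (convex_stdSimplex ℝ (Fin k)).linear_image L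
  have h0 : (0 : Fin p → ℝ) ∉ L '' stdSimplex ℝ (Fin k) := by
    rintro ⟨t, ht, hLt⟩
    have h1 := hno t ht.1 fun i => by rw [← hLa, hLt]; rfl
    have h2 := ht.2
    simp only [h1, Finset.sum_const_zero] at h2
    exact zero_ne_one h2
  obtain ⟨F, u, hu0, hu⟩ := geometric_hahn_banach_point_closed hconv hcomp.isClosed h0
  rw [map_zero] at hu0
  obtain ⟨c, hc⟩ : ∃ c : Fin p → ℝ, c = fun i => F (Pi.single i 1) := ⟨_, rfl⟩
  have hF : ∀ x : Fin p → ℝ, F x = ∑ i, x i * c i := by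
    intro x
    conv_lhs => rw [← Finset.univ_sum_single x, map_sum]
    refine Finset.sum_congr rfl fun i _ => ?_
    have h3 : (Pi.single i (x i) : Fin p → ℝ) = x i • Pi.single i (1 : ℝ) := by
      rw [← Pi.single_smul]
      simp
    rw [h3, map_smul, smul_eq_mul, hc]
  have hb : ∀ b, u < ∑ i, (w b i : ℝ) * c i := by
    intro b
    rw [← hF fun i => (w b i : ℝ)]
    refine hu _ ⟨Pi.single b 1, single_mem_stdSimplex ℝ b, ?_⟩
    funext i
    rw [hLa, Finset.sum_eq_single b]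
    · simp
    · intro b' _ hb'
      rw [Pi.single_eq_of_ne hb', zero_mul]
    · intro h
      exact absurd (Finset.mem_univ b) h
  obtain ⟨W, hW0, hW⟩ : ∃ W : ℝ, 0 < W ∧ ∀ b, ∑ i, |(w b i : ℝ)| ≤ W := by
    refine ⟨∑ b, ∑ i, |(w b i : ℝ)| + 1, by positivity, fun b => ?_⟩
    have := Finset.single_le_sum (f := fun b => ∑ i, |(w b i : ℝ)|)
      (fun b _ => Finset.sum_nonneg fun i _ => abs_nonneg _) (Finset.mem_univ b)
    linarith
  have hq : ∀ i, ∃ q : ℚ, |(q : ℝ) - c i| < u / W := by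
    intro i
    obtain ⟨q, hq1, hq2⟩ := exists_rat_btwn (show c i - u / W < c i + u / W by
      have := div_pos hu0 hW0
      linarith)
    exact ⟨q, by rw [abs_lt]; constructor <;> linarith⟩
  choose q hq using hq
  have hqb : ∀ b, 0 < ∑ i, q i * (w b i : ℚ) := by
    intro b
    have h1 : ∑ i, (w b i : ℝ) * c i - ∑ i, (q i : ℝ) * (w b i : ℝ) ≤ u / W * W := by
      rw [← Finset.sum_sub_distrib]
      have h2 : ∑ i, ((w b i : ℝ) * c i - (q i : ℝ) * (w b i : ℝ)) ≤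
          ∑ i, u / W * |(w b i : ℝ)| := by
        refine Finset.sum_le_sum fun i _ => ?_
        have h3 : (w b i : ℝ) * c i - (q i : ℝ) * (w b i : ℝ) = (c i - q i) * (w b i : ℝ) := by
          ring
        rw [h3]
        refine (le_abs_self _).trans ?_
        rw [abs_mul, abs_sub_comm]
        exact mul_le_mul_of_nonneg_right (hq i).le (abs_nonneg _)
      rw [← Finset.mul_sum] at h2
      exact h2.trans (mul_le_mul_of_nonneg_left (hW b) (div_pos hu0 hW0).le)
    rw [div_mul_cancel₀ _ hW0.ne'] at h1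
    have h2 := hb b
    have h3 : (0 : ℝ) < ∑ i, (q i : ℝ) * (w b i : ℝ) := by linarith
    have h4 : ((∑ i, q i * (w b i : ℚ) : ℚ) : ℝ) = ∑ i, (q i : ℝ) * (w b i : ℝ) := by
      push_cast
      rfl
    rw [← h4] at h3
    exact_mod_cast h3
  obtain ⟨D, hD, ξ, hξ⟩ : ∃ D : ℕ, 1 ≤ D ∧ ∃ ξ : Fin p → ℤ, ∀ i, (D : ℚ) * q i = ξ i := by
    refine ⟨∏ i, (q i).den, Nat.one_le_iff_ne_zero.2 (Finset.prod_ne_zero_iff.2 fun i _ =>
      (q i).den_ne_zero), fun i => (∏ j ∈ Finset.univ.erase i, (q j).den : ℕ) * (q i).num,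
      fun i => ?_⟩
    rw [← Finset.mul_prod_erase Finset.univ (fun i => (q i).den) (Finset.mem_univ i)]
    push_cast
    have h1 : ((q i).den : ℚ) * q i = (q i).num := by
      rw [mul_comm]
      exact Rat.mul_den_eq_num (q i)
    rw [← h1]
    ring
  refine ⟨ξ, fun b => ?_⟩
  have hD0 : (0 : ℚ) < D := by exact_mod_cast hD
  have h1 : ((∑ i, ξ i * w b i : ℤ) : ℚ) = D * ∑ i, q i * (w b i : ℚ) := by
    push_cast
    rw [Finset.mul_sum]
    refine Finset.sum_congr rfl fun i _ => ?_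
    rw [← hξ i]
    ring
  have h2 : (0 : ℚ) < ((∑ i, ξ i * w b i : ℤ) : ℚ) := by
    rw [h1]
    exact mul_pos hD0 (hqb b)
  have h3 : 0 < ∑ i, ξ i * w b i := by exact_mod_cast h2
  linarith

/-- the nef cone: the closure of the ample classes -/
def nefR (N : ℕ) (δ : Fin p → Place ℂ K → ℚ) : Set (Fin p → ℝ) :=
  closure {x | ∃ μ : Fin p → ℚ, Amp N δ μ ∧ ∀ i, x i = μ i}

/-- the cone of the real combinations of `w` -/
def coneR {k : ℕ} (w : Fin k → Fin p → ℤ) : Set (Fin p → ℝ) :=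
  {x | ∃ t : Fin k → ℝ, (∀ b, 0 ≤ t b) ∧ ∀ i, x i = ∑ b, t b * (w b i : ℝ)}

theorem coneR_closed {k : ℕ} {w : Fin k → Fin p → ℤ} {ξ : Fin p → ℤ}
    (hξ : ∀ b, 1 ≤ ∑ i, ξ i * w b i) : IsClosed (coneR w) := by
  classical
  rw [← closure_subset_iff_isClosed]
  intro x hx
  obtain ⟨F, hF⟩ : ∃ F : (Fin p → ℝ) → ℝ, F = fun x => ∑ i, (ξ i : ℝ) * x i := ⟨_, rfl⟩
  have hFc : Continuous F := by
    rw [hF]
    exact continuous_finsetSum _ fun i _ => continuous_const.mul (continuous_apply i)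
  obtain ⟨G, hG⟩ : ∃ G : (Fin k → ℝ) → (Fin p → ℝ), G = fun t i => ∑ b, t b * (w b i : ℝ) :=
    ⟨_, rfl⟩
  have hGc : Continuous G := by
    rw [hG]
    refine continuous_pi fun i => continuous_finsetSum _ fun b _ => ?_
    exact (continuous_apply b).mul continuous_const
  have hcomp : IsCompact (G '' Set.Icc (0 : Fin k → ℝ) fun _ => F x + 1) :=
    isCompact_Icc.image hGc
  have h1 : x ∈ closure (coneR w ∩ F ⁻¹' Set.Iio (F x + 1)) := by
    refine mem_closure_iff.2 fun o ho hxo => ?_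
    obtain ⟨y, hy1, hy2⟩ := mem_closure_iff.1 hx (o ∩ F ⁻¹' Set.Iio (F x + 1))
      (ho.inter (isOpen_Iio.preimage hFc)) ⟨hxo, by simp⟩
    exact ⟨y, hy1.1, hy2, hy1.2⟩
  have h2 : coneR w ∩ F ⁻¹' Set.Iio (F x + 1) ⊆ G '' Set.Icc (0 : Fin k → ℝ) fun _ => F x + 1 := by
    rintro y ⟨⟨t, ht, hy⟩, hyF⟩
    refine ⟨t, ⟨ht, fun b => ?_⟩, ?_⟩
    · have h3 : F y = ∑ b, t b * ((∑ i, ξ i * w b i : ℤ) : ℝ) := by
        rw [hF]
        beta_reduce
        simp only [hy, Finset.mul_sum]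
        rw [Finset.sum_comm]
        refine Finset.sum_congr rfl fun b _ => ?_
        push_cast
        rw [Finset.mul_sum]
        exact Finset.sum_congr rfl fun i _ => by ring
      have h4 : ∀ b, t b ≤ t b * ((∑ i, ξ i * w b i : ℤ) : ℝ) := by
        intro b
        have h5 : (1 : ℝ) ≤ ((∑ i, ξ i * w b i : ℤ) : ℝ) := by exact_mod_cast hξ b
        nlinarith [ht b]
      have h5 : t b ≤ F y := by
        rw [h3]
        refine (h4 b).trans (Finset.single_le_sum
          (f := fun b => t b * ((∑ i, ξ i * w b i : ℤ) : ℝ)) (fun b _ => ?_) (Finset.mem_univ b))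
        exact (ht b).trans (h4 b)
      have h6 : F y < F x + 1 := hyF
      exact h5.trans h6.le
    · funext i
      rw [hG, hy i]
  obtain ⟨t, ht, hGt⟩ := (closure_minimal h2 hcomp.isClosed) h1
  exact ⟨t, ht.1, fun i => by rw [← hGt, hG]⟩

theorem nefR_sub {k : ℕ} {w : Fin k → Fin p → ℤ} {ξ : Fin p → ℤ}
    (hξ : ∀ b, 1 ≤ ∑ i, ξ i * w b i) (hw : ∀ μ : Fin p → ℚ, SemiA N δ μ →
        ∃ t : Fin k → ℚ, (∀ b, 0 ≤ t b) ∧ ∀ i, μ i = ∑ b, t b * w b i) :
    nefR N δ ⊆ coneR w := by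
  refine closure_minimal ?_ (coneR_closed hξ)
  rintro x ⟨μ, ⟨ε, hε, hA⟩, hx⟩
  obtain ⟨t, ht, hμ⟩ := hw μ (hA μ fun i => by simp [hε.le])
  refine ⟨fun b => (t b : ℝ), fun b => Rat.cast_nonneg.2 (ht b), fun i => ?_⟩
  rw [hx i, hμ i]
  push_cast
  rfl

theorem sub_nefR (h : Gns N δ g f) {P0 : Place ℂ K} (hP0 : Divisorial N P0) {A : Fin p → ℚ}
    (hA : Amp N δ A) {k : ℕ} {w : Fin k → Fin p → ℤ}
    (hw : ∀ b, SemiA N δ fun i => (w b i : ℚ)) : coneR w ⊆ nefR N δ := by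
  rintro x ⟨t, ht, hx⟩
  have h1 : ∀ n : ℕ, ∀ b, ∃ q : ℚ, t b ≤ q ∧ (q : ℝ) < t b + 1 / (n + 1) := fun n b => by
    obtain ⟨q, hq1, hq2⟩ := exists_rat_btwn (show t b < t b + 1 / ((n : ℝ) + 1) by
      have : (0 : ℝ) < 1 / ((n : ℝ) + 1) := by positivity
      linarith)
    exact ⟨q, hq1.le, hq2⟩
  choose q hq1 hq2 using h1
  refine mem_closure_of_tendsto (b := Filter.atTop)
    (f := fun n : ℕ => fun i => ∑ b, (q n b : ℝ) * (w b i : ℝ) + 1 / ((n : ℝ) + 1) * (A i : ℝ))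
    ?_ (Filter.Eventually.of_forall fun n => ?_)
  · rw [tendsto_pi_nhds]
    intro i
    have h2 : Filter.Tendsto (fun n : ℕ => 1 / ((n : ℝ) + 1)) Filter.atTop (nhds 0) :=
      tendsto_one_div_add_atTop_nhds_zero_nat
    have h3 : ∀ b, Filter.Tendsto (fun n : ℕ => (q n b : ℝ)) Filter.atTop (nhds (t b)) := by
      intro b
      refine tendsto_of_tendsto_of_tendsto_of_le_of_le tendsto_const_nhds
        (g := fun _ => t b) (h := fun n : ℕ => t b + 1 / ((n : ℝ) + 1)) ?_ (fun n => hq1 n b)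
        fun n => (hq2 n b).le
      simpa using h2.const_add (t b)
    have h4 := (tendsto_finsetSum Finset.univ fun b _ => (h3 b).mul_const (w b i : ℝ)).add
      (h2.mul_const (A i : ℝ))
    rw [zero_mul, add_zero, ← hx i] at h4
    exact h4
  · refine ⟨fun i => ∑ b, q n b * (w b i : ℚ) + 1 / ((n : ℚ) + 1) * A i, ?_, fun i => ?_⟩
    · refine amp_add h hP0 hA (semi_sum h hP0 Finset.univ (fun b _ => ?_) fun b _ => hw b)
        (by positivity)
      have h2 := (ht b).trans (hq1 n b)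
      exact_mod_cast h2
    · push_cast
      rfl

/-- **The nef cone is rational polyhedral.** -/
theorem nefR_eq (h : Gns N δ g f) (hi : Idp N δ) {P0 : Place ℂ K} (hP0 : Divisorial N P0)
    {A : Fin p → ℚ} (hA : Amp N δ A) :
    ∃ (k : ℕ) (w : Fin k → Fin p → ℤ) (ξ : Fin p → ℤ), (∀ b, SemiA N δ fun i => (w b i : ℚ)) ∧
      (∀ b, 1 ≤ ∑ i, ξ i * w b i) ∧ (∀ μ : Fin p → ℚ, SemiA N δ μ →
        ∃ t : Fin k → ℚ, (∀ b, 0 ≤ t b) ∧ ∀ i, μ i = ∑ b, t b * w b i) ∧
      nefR N δ = coneR w := by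
  obtain ⟨k, w, h1, h2⟩ := semi_fg' h hP0
  obtain ⟨ξ, hξ⟩ := exists_form w fun t ht h0 => no_rel h hi hP0 h1 t ht h0
  exact ⟨k, w, ξ, fun b => (h1 b).2, hξ, h2, Set.Subset.antisymm (nefR_sub hξ h2)
    (sub_nefR h hP0 hA fun b => (h1 b).2)⟩

/-- ample combinations are in the interior of the nef cone -/
theorem amp_interior {A : Fin p → ℚ} (hA : Amp N δ A) : (fun i => (A i : ℝ)) ∈ interior (nefR N δ) := by
  obtain ⟨ε, hε, hA'⟩ := hA
  have hε' : (0 : ℝ) < ε := by exact_mod_cast hε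
  rw [mem_interior_iff_mem_nhds, Metric.mem_nhds_iff]
  refine ⟨ε, hε', fun x hx => ?_⟩
  rw [Metric.mem_ball] at hx
  refine mem_closure_iff.2 fun o ho hxo => ?_
  obtain ⟨r, hr, hro⟩ := Metric.isOpen_iff.1 ho x hxo
  obtain ⟨η, hη⟩ : ∃ η, η = min r (ε - dist x fun i => (A i : ℝ)) := ⟨_, rfl⟩
  have hη0 : 0 < η := by
    rw [hη]
    exact lt_min hr (by linarith)
  have h1 : ∀ i, ∃ q : ℚ, x i < q ∧ (q : ℝ) < x i + η / 2 := fun i =>
    exists_rat_btwn (by linarith)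
  choose q hq1 hq2 using h1
  have hd : ∀ i, |(q i : ℝ) - x i| ≤ η / 2 := fun i => by
    rw [abs_le]
    constructor
    · have := hq1 i
      linarith
    · have := hq2 i
      linarith
  have hdist : dist (fun i => (q i : ℝ)) x ≤ η / 2 := by
    rw [dist_pi_le_iff (by linarith)]
    intro i
    rw [Real.dist_eq]
    exact hd i
  refine ⟨fun i => (q i : ℝ), hro ?_, q, ?_, fun i => rfl⟩
  · rw [Metric.mem_ball]
    have : η ≤ r := by
      rw [hη]
      exact min_le_left _ _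
    linarith
  · -- all the points near `q` are near `A`
    obtain ⟨D, hD⟩ : ∃ D : ℝ, D = dist x fun i => (A i : ℝ) := ⟨_, rfl⟩
    have hη1 : η ≤ ε - D := by
      rw [hη, hD]
      exact min_le_right _ _
    obtain ⟨s, hs0, hs⟩ : ∃ s : ℚ, 0 < s ∧ (s : ℝ) < η / 2 := by
      obtain ⟨s, h2, h3⟩ := exists_rat_btwn (show (0 : ℝ) < η / 2 by linarith)
      exact ⟨s, by exact_mod_cast h2, h3⟩
    refine ⟨s, hs0, fun μ hμ => hA' μ fun i => ?_⟩
    have h2 : |((μ i : ℚ) : ℝ) - q i| ≤ s := by exact_mod_cast hμ i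
    have h3 := hd i
    have h4 : |x i - A i| ≤ D := by
      rw [hD, ← Real.dist_eq]
      exact dist_le_pi_dist x (fun i => (A i : ℝ)) i
    have h5 : |((μ i : ℚ) : ℝ) - A i| ≤ ε := by
      have h6 : ((μ i : ℚ) : ℝ) - A i = (μ i - q i) + (q i - x i) + (x i - A i) := by ring
      rw [h6]
      refine (abs_add_le _ _).trans ?_
      have h7 := abs_add_le ((μ i : ℝ) - q i) (q i - x i)
      linarith
    exact_mod_cast h5

/-- a rational point of the cone is a rational combination -/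
theorem rat_of_real {k : ℕ} {w : Fin k → Fin p → ℤ} {μ : Fin p → ℚ}
    (hμ : (fun i => (μ i : ℝ)) ∈ coneR w) :
    ∃ t : Fin k → ℚ, (∀ b, 0 ≤ t b) ∧ ∀ i, μ i = ∑ b, t b * w b i := by
  classical
  obtain ⟨D, hD, m, hm⟩ : ∃ D : ℕ, 1 ≤ D ∧ ∃ m : Fin p → ℤ, ∀ i, (D : ℚ) * μ i = m i := by
    refine ⟨∏ i, (μ i).den, Nat.one_le_iff_ne_zero.2 (Finset.prod_ne_zero_iff.2 fun i _ =>
      (μ i).den_ne_zero), fun i => (∏ j ∈ Finset.univ.erase i, (μ j).den : ℕ) * (μ i).num,
      fun i => ?_⟩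
    rw [← Finset.mul_prod_erase Finset.univ (fun i => (μ i).den) (Finset.mem_univ i)]
    push_cast
    have h1 : ((μ i).den : ℚ) * μ i = (μ i).num := by
      rw [mul_comm]
      exact Rat.mul_den_eq_num (μ i)
    rw [← h1]
    ring
  obtain ⟨t, ht, hx⟩ := hμ
  beta_reduce at hx
  obtain ⟨N1, hh, h1, h2⟩ := real_cone (q := k + 1) (ι := Fin p ⊕ Fin p)
    (Sum.elim (fun i => Fin.snoc (fun b => w b i) (- m i))
      fun i => Fin.snoc (fun b => - w b i) (m i))
  have hD0 : (0 : ℝ) < D := by exact_mod_cast hD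
  have hm' : ∀ i, (m i : ℝ) = D * μ i := fun i => by
    have h3 : ((D : ℚ) * μ i : ℚ) = (m i : ℚ) := hm i
    have h4 : (((D : ℚ) * μ i : ℚ) : ℝ) = ((m i : ℚ) : ℝ) := by rw [h3]
    push_cast at h4
    exact h4.symm
  obtain ⟨s, hs, hs'⟩ := h2 (Fin.snoc (fun b => t b) (1 / D)) (by
      intro b
      refine Fin.lastCases ?_ (fun b => ?_) b
      · rw [Fin.snoc_last]
        positivity
      · rw [Fin.snoc_castSucc]
        exact ht b) (by
      rintro (i | i)
      · rw [Fin.sum_univ_castSucc]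
        simp only [Sum.elim_inl, Fin.snoc_castSucc, Fin.snoc_last]
        have h3 : ∑ b, (w b i : ℝ) * t b = μ i := by
          rw [hx i]
          exact Finset.sum_congr rfl fun b _ => mul_comm _ _
        rw [h3]
        push_cast
        rw [hm']
        field_simp
        simp
      · rw [Fin.sum_univ_castSucc]
        simp only [Sum.elim_inr, Fin.snoc_castSucc, Fin.snoc_last]
        have h3 : ∑ b, ((-w b i : ℤ) : ℝ) * t b = - μ i := by
          rw [hx i, ← Finset.sum_neg_distrib]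
          push_cast
          exact Finset.sum_congr rfl fun b _ => by ring
        rw [h3, hm']
        field_simp
        simp)
  -- an integral solution whose last coordinate is positive
  obtain ⟨c, hc⟩ : ∃ c, hh c (Fin.last k) ≠ 0 := by
    by_contra hcon
    push Not at hcon
    have h3 := hs' (Fin.last k)
    rw [Fin.snoc_last] at h3
    simp only [hcon, Nat.cast_zero, mul_zero, Finset.sum_const_zero] at h3
    have h4 : (0 : ℝ) < 1 / D := by positivity
    linarith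
  obtain ⟨l, hl⟩ : ∃ l : ℕ, l = hh c (Fin.last k) := ⟨_, rfl⟩
  rw [← hl] at hc
  have hl0 : (0 : ℚ) < l := by
    have : 0 < l := Nat.pos_of_ne_zero hc
    exact_mod_cast this
  have hDq : (0 : ℚ) < D := by exact_mod_cast hD
  refine ⟨fun b => (hh c b.castSucc : ℚ) / (D * l), fun b => by positivity, fun i => ?_⟩
  have h3 := h1 c (Sum.inl i)
  have h4 := h1 c (Sum.inr i)
  rw [Fin.sum_univ_castSucc] at h3 h4
  simp only [Sum.elim_inl, Sum.elim_inr, Fin.snoc_castSucc, Fin.snoc_last, ← hl] at h3 h4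
  have h5 : ∑ b, (-w b i) * (hh c b.castSucc : ℤ) = - ∑ b, w b i * (hh c b.castSucc : ℤ) := by
    rw [← Finset.sum_neg_distrib]
    exact Finset.sum_congr rfl fun b _ => by ring
  rw [h5] at h4
  have h6 : ∑ b, w b i * (hh c b.castSucc : ℤ) = m i * l := by linarith
  have h7 : ∑ b, (w b i : ℚ) * (hh c b.castSucc : ℚ) = m i * l := by exact_mod_cast h6
  have h8 : ∑ b, (hh c b.castSucc : ℚ) / (D * l) * (w b i : ℚ) =
      (∑ b, (w b i : ℚ) * (hh c b.castSucc : ℚ)) / (D * l) := by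
    rw [Finset.sum_div]
    exact Finset.sum_congr rfl fun b _ => by ring
  rw [h8, h7, ← hm i]
  field_simp

end Pool.Agent.Helper15K1.KC
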